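import Mathlib

/-!
# Anisotropic diagonal quadratic forms

The quadratic form `∑ T_a S_i u_{a,i} ^ 2` is anisotropic over the field of rational functions in
the independent variables `T_a`, `S_i`.
-/

namespace Pool.Agent.H61.BD

open MvPolynomial Finset

universe u v

/-- A diagonal form whose coefficients are monomials which are pairwise different modulo squares
is anisotropic over the ring of polynomials. -/
theorem aniso_poly {k : Type u} [Field k] {τ : Type v} [LinearOrder τ] [WellFoundedGT τ]
    {E : Type*} [Fintype E] (w : E → (τ →₀ ℕ))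
    (hw : ∀ e e' d d', w e + 2 • d = w e' + 2 • d' → e = e')
    (u : E → MvPolynomial τ k) (h : ∑ e, monomial (w e) (1 : k) * u e ^ 2 = 0) (e : E) :
    u e = 0 := by
  classical
  by_contra hne
  let m : MonomialOrder τ := MonomialOrder.lex
  have hdeg : ∀ e, u e ≠ 0 → monomial (w e) (1 : k) * u e ^ 2 ≠ 0 ∧
      m.degree (monomial (w e) (1 : k) * u e ^ 2) = w e + 2 • m.degree (u e) := by
    intro e he
    have h1 : monomial (w e) (1 : k) ≠ 0 := by
      rw [Ne, monomial_eq_zero]; exact one_ne_zero
    have h2 : u e ^ 2 ≠ 0 := pow_ne_zero _ he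
    refine ⟨mul_ne_zero h1 h2, ?_⟩
    rw [m.degree_mul h1 h2, sq, m.degree_mul he he, m.degree_monomial, if_neg one_ne_zero,
      two_smul]
  obtain ⟨e₀, he₀, hmax⟩ := Finset.exists_max_image (univ.filter fun e => u e ≠ 0)
    (fun e => m.toSyn (m.degree (monomial (w e) (1 : k) * u e ^ 2))) ⟨e, by simp [hne]⟩
  rw [Finset.mem_filter] at he₀
  have h1 := congrArg (coeff (m.degree (monomial (w e₀) (1 : k) * u e₀ ^ 2))) h
  rw [coeff_sum, coeff_zero, Finset.sum_eq_single e₀] at h1
  · exact (m.coeff_degree_ne_zero_iff.2 (hdeg e₀ he₀.2).1) h1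
  · intro e' _ he'
    by_cases hu : u e' = 0
    · rw [hu]; simp
    · apply m.coeff_eq_zero_of_lt
      refine lt_of_le_of_ne (hmax e' (by simp [hu])) ?_
      intro heq
      apply he'
      have h2 := m.toSyn.injective heq
      rw [(hdeg e' hu).2, (hdeg e₀ he₀.2).2] at h2
      exact hw _ _ _ _ h2
  · intro h; exact absurd (mem_univ e₀) h

/-- A diagonal form whose coefficients are monomials which are pairwise different modulo squares
is anisotropic over the field of rational functions. -/
theorem aniso_frac {k : Type u} [Field k] {τ : Type v} [LinearOrder τ] [WellFoundedGT τ]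
    {K : Type*} [Field K] [Algebra (MvPolynomial τ k) K] [IsFractionRing (MvPolynomial τ k) K]
    {E : Type*} [Fintype E] (w : E → (τ →₀ ℕ))
    (hw : ∀ e e' d d', w e + 2 • d = w e' + 2 • d' → e = e')
    (u : E → K)
    (h : ∑ e, algebraMap (MvPolynomial τ k) K (monomial (w e) (1 : k)) * u e ^ 2 = 0) (e : E) :
    u e = 0 := by
  classical
  obtain ⟨b, hb⟩ := IsLocalization.exist_integer_multiples_of_finset
    (nonZeroDivisors (MvPolynomial τ k)) (univ.image u)
  have hb' : ∀ e, ∃ p : MvPolynomial τ k, algebraMap (MvPolynomial τ k) K p =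
      algebraMap (MvPolynomial τ k) K b * u e := by
    intro e
    obtain ⟨p, hp⟩ := hb (u e) (Finset.mem_image_of_mem _ (mem_univ _))
    refine ⟨p, ?_⟩
    rw [hp, Algebra.smul_def]
  choose p hp using hb'
  have hb0 : algebraMap (MvPolynomial τ k) K b ≠ 0 := by
    intro h0
    have h1 := IsFractionRing.injective (MvPolynomial τ k) K (h0.trans (map_zero _).symm)
    exact nonZeroDivisors.coe_ne_zero b h1
  have h1 : ∑ e, monomial (w e) (1 : k) * p e ^ 2 = 0 := by
    apply IsFractionRing.injective (MvPolynomial τ k) K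
    rw [map_zero, map_sum]
    have : ∀ e, algebraMap (MvPolynomial τ k) K (monomial (w e) (1 : k) * p e ^ 2) =
        algebraMap (MvPolynomial τ k) K b ^ 2 *
          (algebraMap (MvPolynomial τ k) K (monomial (w e) (1 : k)) * u e ^ 2) := by
      intro e
      rw [map_mul, map_pow, hp]
      ring
    simp only [this, ← Finset.mul_sum, h, mul_zero]
  have h2 := aniso_poly w hw p h1 e
  have h3 := hp e
  rw [h2, map_zero] at h3
  exact (mul_eq_zero.1 h3.symm).resolve_left hb0

/-- The field of rational functions in `2 h` variables, and elements `T_a`, `S_i` of it for which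
the form `∑ T_a S_i u_{a,i} ^ 2` is anisotropic. -/
theorem exists_labels (k : Type u) [Field k] (h : ℕ) :
    ∃ (K : Type u) (_ : Field K) (_ : Algebra k K) (T S : Fin h → K),
      ∀ u : Fin h → Fin h → K, ∑ a, ∑ i, T a * S i * u a i ^ 2 = 0 → ∀ a i, u a i = 0 := by
  classical
  let A := MvPolynomial (Fin (h + h)) k
  let K := FractionRing A
  refine ⟨K, inferInstance, inferInstance,
    fun a => algebraMap A K (X (Fin.castAdd h a)), fun i => algebraMap A K (X (Fin.natAdd h i)),
    ?_⟩
  intro u hu a i
  have h1 := aniso_frac (k := k) (τ := Fin (h + h)) (K := K) (E := Fin h × Fin h)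
    (fun e => Finsupp.single (Fin.castAdd h e.1) 1 + Finsupp.single (Fin.natAdd h e.2) 1)
    ?_ (fun e => u e.1 e.2) ?_ (a, i)
  · exact h1
  · rintro ⟨a, i⟩ ⟨a', i'⟩ d d' heq
    have hne : ∀ (x y : Fin h), Fin.castAdd h x ≠ Fin.natAdd h y := by
      intro x y hxy
      have := congrArg Fin.val hxy
      simp at this
      omega
    have e1 := DFunLike.congr_fun heq (Fin.castAdd h a)
    have e2 := DFunLike.congr_fun heq (Fin.natAdd h i)
    simp only [Finsupp.add_apply, Finsupp.smul_apply, smul_eq_mul, Finsupp.single_apply] at e1 e2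
    have ha : a = a' := by
      by_contra hc
      have c1 : ¬ (Fin.castAdd h a' = Fin.castAdd h a) := by
        intro hh; exact hc (Fin.castAdd_injective _ _ hh).symm
      have c2 : ∀ y : Fin h, ¬ (Fin.natAdd h y = Fin.castAdd h a) := fun y hh => hne _ _ hh.symm
      simp only [c1, c2, if_false, if_true] at e1
      omega
    have hi : i = i' := by
      by_contra hc
      have c1 : ¬ (Fin.natAdd h i' = Fin.natAdd h i) := by
        intro hh; exact hc (Fin.natAdd_injective _ _ hh).symm
      have c2 : ∀ y : Fin h, ¬ (Fin.castAdd h y = Fin.natAdd h i) := fun y hh => hne _ _ hh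
      simp only [c1, c2, if_false, if_true] at e2
      omega
    rw [ha, hi]
  · rw [Fintype.sum_prod_type]
    rw [← hu]
    refine Finset.sum_congr rfl fun a _ => Finset.sum_congr rfl fun i _ => ?_
    rw [← map_mul, X, X, monomial_mul, one_mul]

end Pool.Agent.H61.BD
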