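import Pool.Agent.H10.PerSL.Subst
import Pool.Agent.H10.PerSL.Hensel

/-!
# Border determinantal complexity and linear subspaces of a hypersurface

`exists_subspace`: if `f` is a limit of determinants of `s × s` matrices of affine forms, then
through every zero of `f` at which some partial derivative does not vanish there is an affine
subspace of codimension at most `s` on which `f` vanishes.
-/

namespace Pool.Agent.H61.BD

open MvPolynomial Finset Module
open Pool.Agent.H53.AC (SpecializesTo)
open Pool.Agent.H10.PerSL (exists_psi hensel constantCoeff_eval)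

universe u v

/-- `f` is the determinant of an `s × s` matrix whose entries are polynomials of degree at most
one. -/
def DetLE {k : Type*} [Field k] {σ : Type*} (f : MvPolynomial σ k) (s : ℕ) : Prop :=
  ∃ A : Matrix (Fin s) (Fin s) (MvPolynomial σ k), (∀ i j, (A i j).totalDegree ≤ 1) ∧ A.det = f

/-- The approximative determinantal complexity of `f` is at most `s`: there is a polynomial `F`
over `k(ε)`, all of whose coefficients are defined at `ε = 0`, with `F_{ε=0} = f`, which is the
determinant of an `s × s` matrix whose entries are polynomials over `k(ε)` of degree at most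
one. -/
def BorderDetLE {k : Type*} [Field k] {σ : Type*} (f : MvPolynomial σ k) (s : ℕ) : Prop :=
  ∃ F : MvPolynomial σ (RatFunc k), (∀ m, SpecializesTo (coeff m F) (coeff m f)) ∧ DetLE F s

/-! ### Affine polynomials -/

theorem eval₂_add_of_totalDegree_le_one {R : Type*} {S : Type*} [CommRing R] [CommRing S]
    {σ : Type*} [Fintype σ] [DecidableEq σ] (ψ : R →+* S) (p : MvPolynomial σ R)
    (hp : p.totalDegree ≤ 1) (x u : σ → S) :
    eval₂ ψ (x + u) p = eval₂ ψ x p + ∑ e, ψ (coeff (Finsupp.single e 1) p) * u e := by
  have key : ∀ y : σ → S, eval₂ ψ y p =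
      ψ (coeff 0 p) + ∑ e, ψ (coeff (Finsupp.single e 1) p) * y e := by
    intro y
    have hpe : p = C (coeff 0 p) + ∑ e, C (coeff (Finsupp.single e 1) p) * X e := by
      ext m
      rw [coeff_add, coeff_C, coeff_sum]
      simp only [coeff_C_mul, coeff_X]
      by_cases hm : m = 0
      · subst hm
        simp
      · rw [if_neg (fun h => hm h.symm), zero_add]
        by_cases hm1 : ∃ e, m = Finsupp.single e 1
        · obtain ⟨e, rfl⟩ := hm1
          rw [Finset.sum_eq_single e]
          · simp
          · intro b _ hb
            rw [if_neg, mul_zero]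
            intro h
            exact hb (Finsupp.single_left_injective one_ne_zero h)
          · intro h; exact absurd (mem_univ e) h
        · push Not at hm1
          rw [Finset.sum_eq_zero]
          · by_contra hne
            have hsupp : m ∈ p.support := mem_support_iff.2 hne
            have h1 : (m.sum fun _ n => n) ≤ 1 := (le_totalDegree hsupp).trans hp
            obtain ⟨e, he⟩ : ∃ e, m e ≠ 0 := by
              by_contra hall
              push Not at hall
              exact hm (Finsupp.ext hall)
            apply hm1 e
            ext e'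
            rw [Finsupp.sum_fintype _ _ (fun _ => rfl)] at h1
            by_cases hee : e' = e
            · subst hee
              rw [Finsupp.single_eq_same]
              have := Finset.single_le_sum (f := fun i => m i) (fun i _ => Nat.zero_le _)
                (mem_univ e')
              have h2 : m e' ≤ ∑ i, m i := this
              omega
            · rw [Finsupp.single_eq_of_ne hee]
              have h3 : m e + m e' ≤ ∑ i, m i := by
                rw [← Finset.add_sum_erase _ _ (mem_univ e)]
                have h4 : e' ∈ (univ.erase e) := Finset.mem_erase.2 ⟨hee, mem_univ _⟩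
                have := Finset.single_le_sum (f := fun i => m i) (fun i _ => Nat.zero_le _) h4
                have h5 : m e' ≤ ∑ i ∈ univ.erase e, m i := this
                omega
              omega
          · intro e _
            rw [if_neg (fun h => hm1 e h.symm), mul_zero]
    conv_lhs => rw [hpe]
    rw [eval₂_add, eval₂_C, eval₂_sum]
    congr 1
    refine Finset.sum_congr rfl fun e _ => ?_
    rw [eval₂_mul, eval₂_C, eval₂_X]
  rw [key, key, add_assoc, ← Finset.sum_add_distrib]
  congr 1
  refine Finset.sum_congr rfl fun e _ => ?_
  rw [Pi.add_apply]; ring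

/-! ### Reduction of subspaces -/

section red

variable {k : Type u} [Field k] {L : Type u} [Field L] [Algebra (PowerSeries k) L]
  {σ : Type v}

/-- The reductions of the integral vectors of a subspace `W`. -/
def red (W : Submodule L (σ → L)) : Submodule k (σ → k) where
  carrier := {w | ∃ v : σ → PowerSeries k, (fun i => algebraMap (PowerSeries k) L (v i)) ∈ W ∧
    ∀ i, PowerSeries.constantCoeff (v i) = w i}
  add_mem' := by
    rintro a b ⟨v, hv, hva⟩ ⟨w, hw, hwb⟩
    refine ⟨v + w, ?_, fun i => by simp [hva, hwb]⟩
    have := W.add_mem hv hw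
    convert this using 1
    funext i
    simp
  zero_mem' := ⟨0, by
    convert W.zero_mem using 1
    funext i
    simp, fun i => by simp⟩
  smul_mem' := by
    rintro c a ⟨v, hv, hva⟩
    refine ⟨fun i => PowerSeries.C c * v i, ?_, fun i => by simp [hva]⟩
    have := W.smul_mem (algebraMap (PowerSeries k) L (PowerSeries.C c)) hv
    convert this using 1
    funext i
    simp

variable [IsFractionRing (PowerSeries k) L] [Fintype σ]

theorem exists_pivot (w : σ → L) (hw : w ≠ 0) :
    ∃ e, w e ≠ 0 ∧ ∀ i, ∃ r : PowerSeries k, w i = algebraMap (PowerSeries k) L r * w e := by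
  classical
  obtain ⟨i₀, hi₀⟩ : ∃ i, w i ≠ 0 := by
    by_contra h
    push Not at h
    exact hw (funext h)
  obtain ⟨e, -, he⟩ := Finset.exists_max_image univ
    (fun i => ValuationRing.valuation (PowerSeries k) L (w i)) ⟨i₀, mem_univ _⟩
  have hne : w e ≠ 0 := by
    intro h
    have := he i₀ (mem_univ _)
    rw [h, map_zero] at this
    have h2 := le_antisymm this zero_le
    rw [map_eq_zero] at h2
    exact hi₀ h2
  refine ⟨e, hne, fun i => ?_⟩
  have h1 : ValuationRing.valuation (PowerSeries k) L (w i / w e) ≤ 1 := by
    rw [map_div₀]
    exact div_le_one_of_le₀ (he i (mem_univ _)) zero_le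
  obtain ⟨r, hr⟩ := (ValuationRing.mem_integer_iff (PowerSeries k) L _).1 h1
  exact ⟨r, by rw [hr, div_mul_cancel₀ _ hne]⟩

theorem finrank_red_aux : ∀ (n : ℕ) (W : Submodule L (σ → L)), n ≤ finrank L W →
    n ≤ finrank k (red (k := k) W) := by
  classical
  intro n
  induction n with
  | zero => intro W _; exact Nat.zero_le _
  | succ n ih =>
    intro W hW
    obtain ⟨w, hw, hw0⟩ : ∃ w ∈ W, w ≠ 0 := by
      apply Submodule.exists_mem_ne_zero_of_ne_bot
      rintro rfl
      simp at hW
    obtain ⟨e, he, hr⟩ := exists_pivot (k := k) w hw0
    choose r hr using hr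
    -- the subspace of the vectors vanishing at `e`
    let H : Submodule L (σ → L) := LinearMap.ker (LinearMap.proj e : (σ → L) →ₗ[L] L)
    have hH : finrank L H + 1 ≥ finrank L (σ → L) := by
      have h1 := LinearMap.finrank_range_add_finrank_ker (LinearMap.proj e : (σ → L) →ₗ[L] L)
      have h3 : finrank L (LinearMap.range (LinearMap.proj e : (σ → L) →ₗ[L] L)) ≤ 1 := by
        have := Submodule.finrank_le (LinearMap.range (LinearMap.proj e : (σ → L) →ₗ[L] L))
        simpa using this
      change _ + finrank L H = _ at h1
      omega
    have hW' : n ≤ finrank L (W ⊓ H : Submodule L (σ → L)) := by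
      have h1 := Submodule.finrank_sup_add_finrank_inf_eq W H
      have h2 := Submodule.finrank_le (W ⊔ H)
      omega
    have hlt : red (k := k) (W ⊓ H) < red (k := k) W := by
      rw [SetLike.lt_iff_le_and_exists]
      refine ⟨?_, fun i => PowerSeries.constantCoeff (r i), ⟨r, ?_, fun i => rfl⟩, ?_⟩
      · rintro a ⟨v, hv, hva⟩
        exact ⟨v, hv.1, hva⟩
      · convert W.smul_mem (w e)⁻¹ hw using 1
        funext i
        rw [Pi.smul_apply, smul_eq_mul, hr i]
        field_simp
      · rintro ⟨v, hv, hva⟩
        have h1 : algebraMap (PowerSeries k) L (v e) = 0 := hv.2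
        have h2 : v e = 0 := by
          apply IsFractionRing.injective (PowerSeries k) L
          rw [h1, map_zero]
        have h3 : algebraMap (PowerSeries k) L (r e) = 1 := by
          have := hr e
          field_simp at this
          exact this.symm
        have h4 : r e = 1 := by
          apply IsFractionRing.injective (PowerSeries k) L
          rw [h3, map_one]
        have h5 : PowerSeries.constantCoeff (v e) = PowerSeries.constantCoeff (r e) := hva e
        rw [h2, h4, map_zero, map_one] at h5
        exact zero_ne_one h5
    have h6 := Submodule.finrank_lt_finrank_of_lt hlt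
    have h7 := ih (W ⊓ H) hW'
    omega

theorem finrank_red (W : Submodule L (σ → L)) : finrank L W ≤ finrank k (red (k := k) W) :=
  finrank_red_aux _ W le_rfl

end red

/-! ### One variable at a time -/

theorem eval_pderiv_subst {k : Type*} [Field k] {σ : Type*} [DecidableEq σ]
    (f : MvPolynomial σ k) (x₀ : σ → k) (c : σ) :
    eval (fun _ => x₀ c) (pderiv () (aeval (fun i => if i = c then X () else C (x₀ i)) f :
      MvPolynomial Unit k)) = eval x₀ (pderiv c f) := by
  have hev : ∀ g : MvPolynomial σ k, eval (fun _ => x₀ c)
      (aeval (fun i => if i = c then X () else C (x₀ i)) g : MvPolynomial Unit k) =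
      eval x₀ g := by
    intro g
    induction g using MvPolynomial.induction_on with
    | C a => simp
    | add p q hp hq => simp only [map_add, hp, hq]
    | mul_X p i hp =>
      simp only [map_mul, hp, aeval_X, eval_X]
      congr 1
      split_ifs with h
      · subst h; simp
      · simp
  induction f using MvPolynomial.induction_on with
  | C a => simp
  | add p q hp hq => simp only [map_add, hp, hq]
  | mul_X p i hp =>
    simp only [map_mul, Derivation.leibniz, aeval_X, smul_eq_mul, map_add, hp, hev, eval_X]
    by_cases h : i = c
    · subst h; simp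
    · have h1 : pderiv c (X i : MvPolynomial σ k) = 0 := pderiv_X_of_ne h
      rw [h1]
      simp [h]

theorem map_subst {k : Type u} [Field k] {σ : Type v} [DecidableEq σ]
    (P : MvPolynomial σ (PowerSeries k)) (x₀ : σ → k) (c : σ) :
    map (PowerSeries.constantCoeff (R := k)) (aeval (fun i =>
      if i = c then (X () : MvPolynomial Unit (PowerSeries k))
        else C (PowerSeries.C (x₀ i))) P) =
      aeval (fun i => if i = c then X () else C (x₀ i))
        (map (PowerSeries.constantCoeff (R := k)) P) := by
  induction P using MvPolynomial.induction_on with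
  | C a => simp
  | add p q hp hq => simp only [map_add, hp, hq]
  | mul_X p i hp =>
    simp only [map_mul, aeval_X, map_X, hp]
    congr 1
    split_ifs <;> simp

theorem eval_subst {R : Type*} [CommRing R] {σ : Type*} [DecidableEq σ]
    (P : MvPolynomial σ R) (x₀ : σ → R) (c : σ) (q : Unit → R) :
    eval q (aeval (fun i => if i = c then X () else C (x₀ i)) P : MvPolynomial Unit R) =
      eval (fun i => if i = c then q () else x₀ i) P := by
  induction P using MvPolynomial.induction_on with
  | C a => simp
  | add p q hp hq => simp only [map_add, hp, hq]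
  | mul_X p i hp =>
    simp only [map_mul, aeval_X, eval_X, hp]
    congr 1
    split_ifs <;> simp

theorem hensel_one {k : Type u} [Field k] {σ : Type v} [DecidableEq σ]
    (P : MvPolynomial σ (PowerSeries k)) (x₀ : σ → k) (c : σ)
    (h0 : eval x₀ (map (PowerSeries.constantCoeff (R := k)) P) = 0)
    (hc : eval x₀ (pderiv c (map (PowerSeries.constantCoeff (R := k)) P)) ≠ 0) :
    ∃ x : σ → PowerSeries k, eval x P = 0 ∧ ∀ i, PowerSeries.constantCoeff (x i) = x₀ i := by
  obtain ⟨q, hq, hq0⟩ := hensel (κ := Unit) (fun _ => aeval (fun i =>
      if i = c then (X () : MvPolynomial Unit (PowerSeries k))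
        else C (PowerSeries.C (x₀ i))) P) (fun _ => x₀ c) (by
      intro _
      rw [map_subst, eval_subst]
      have : (fun i => if i = c then x₀ c else x₀ i) = x₀ := by
        funext i
        split_ifs with h
        · rw [h]
        · rfl
      rw [this, h0]) (by
      rw [Matrix.det_unique, Matrix.of_apply]
      change eval (fun _ => x₀ c) (pderiv () (map _ _)) ≠ 0
      rw [map_subst, eval_pderiv_subst]
      exact hc)
  refine ⟨fun i => if i = c then q () else PowerSeries.C (x₀ i), ?_, fun i => ?_⟩
  · have := hq ()
    rwa [eval_subst] at this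
  · dsimp only
    split_ifs with h
    · rw [hq0, h]
    · simp

/-! ### The main statement -/

/-- Polynomials over `k(ε)` with coefficients defined at `ε = 0`, as polynomials over `k[[ε]]`. -/
theorem exists_lift {k : Type u} [Field k] {L : Type u} [Field L] [Algebra (PowerSeries k) L]
    (hinj : Function.Injective (algebraMap (PowerSeries k) L)) {σ : Type v}
    {f : MvPolynomial σ k} {F : MvPolynomial σ (RatFunc k)}
    (hF : ∀ m, SpecializesTo (coeff m F) (coeff m f)) :
    ∃ (ψ : RatFunc k →+* L) (P : MvPolynomial σ (PowerSeries k)),
      map (algebraMap (PowerSeries k) L) P = map ψ F ∧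
      map (PowerSeries.constantCoeff (R := k)) P = f := by
  classical
  obtain ⟨ψ, hψ⟩ := exists_psi (k := k) (K := k) (L := L) hinj one_pos
  choose b hb using fun m => hψ _ _ (hF m)
  let s := F.support ∪ f.support
  refine ⟨ψ, ∑ m ∈ s, monomial m (PowerSeries.C (coeff m f) + PowerSeries.X * b m), ?_, ?_⟩
  · ext m
    rw [coeff_map, coeff_map, coeff_sum, map_sum]
    simp only [coeff_monomial]
    by_cases hm : m ∈ s
    · rw [Finset.sum_eq_single m]
      · rw [if_pos rfl, hb m]; simp
      · intro b' _ hb'; rw [if_neg hb', map_zero]
      · intro h; exact absurd hm h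
    · rw [Finset.sum_eq_zero]
      · have : coeff m F = 0 := by
          by_contra h
          exact hm (Finset.mem_union_left _ (mem_support_iff.2 h))
        rw [this, map_zero]
      · intro b' hb'
        rw [if_neg, map_zero]
        rintro rfl
        exact hm hb'
  · ext m
    rw [coeff_map, coeff_sum, map_sum]
    simp only [coeff_monomial]
    by_cases hm : m ∈ s
    · rw [Finset.sum_eq_single m]
      · rw [if_pos rfl]; simp
      · intro b' _ hb'; rw [if_neg hb', map_zero]
      · intro h; exact absurd hm h
    · rw [Finset.sum_eq_zero]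
      · by_contra h
        exact hm (Finset.mem_union_right _ (mem_support_iff.2 fun h' => h h'.symm))
      · intro b' hb'
        rw [if_neg, map_zero]
        rintro rfl
        exact hm hb'

/-- If `f` has border determinantal complexity at most `s`, then through every zero of `f` at
which some partial derivative does not vanish there is an affine subspace of codimension at most
`s` on which `f` vanishes. -/
theorem exists_subspace {k : Type u} [Field k] {σ : Type v} [Fintype σ] [DecidableEq σ]
    {f : MvPolynomial σ k} {s : ℕ} (hf : BorderDetLE f s) (x₀ : σ → k) (c : σ)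
    (h0 : eval x₀ f = 0) (hc : eval x₀ (pderiv c f) ≠ 0) :
    ∃ U : Submodule k (σ → k), Fintype.card σ ≤ finrank k U + s ∧
      ∀ u ∈ U, eval (x₀ + u) f = 0 := by
  obtain ⟨F, hF, A, hA, hdet⟩ := hf
  let L := FractionRing (PowerSeries k)
  have hinj : Function.Injective (algebraMap (PowerSeries k) L) :=
    IsFractionRing.injective (PowerSeries k) L
  obtain ⟨ψ, P, hPF, hPf⟩ := exists_lift (L := L) hinj hF
  obtain ⟨x, hx, hx0⟩ := hensel_one P x₀ c (by rw [hPf]; exact h0) (by rw [hPf]; exact hc)
  let ι : (σ → PowerSeries k) → (σ → L) := fun v i => algebraMap (PowerSeries k) L (v i)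
  let M : (σ → L) → Matrix (Fin s) (Fin s) L := fun y => Matrix.of fun i j => eval₂ ψ y (A i j)
  have hM : ∀ y, (M y).det = eval₂ ψ y F := by
    intro y
    have h1 : M y = (eval₂Hom ψ y).mapMatrix A := by
      ext i j; rfl
    rw [h1, ← RingHom.map_det, hdet]
    rfl
  have hMι : ∀ v : σ → PowerSeries k, (M (ι v)).det = algebraMap (PowerSeries k) L (eval v P) := by
    intro v
    rw [hM, ← eval_map, ← hPF, eval_map, ← eval₂_id, eval₂_comp_left]
    rfl
  have hsing : (M (ι x)).det = 0 := by rw [hMι, hx, map_zero]
  obtain ⟨α, hα0, hα⟩ := Matrix.exists_vecMul_eq_zero_iff.2 hsing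
  let φ : (σ → L) →ₗ[L] (Fin s → L) :=
    { toFun := fun u j => ∑ i, α i * ∑ e, ψ (coeff (Finsupp.single e 1) (A i j)) * u e
      map_add' := by
        intro u w
        funext j
        simp only [Pi.add_apply, mul_add, Finset.sum_add_distrib]
      map_smul' := by
        intro c u
        funext j
        simp only [Pi.smul_apply, smul_eq_mul, RingHom.id_apply]
        rw [Finset.mul_sum]
        refine Finset.sum_congr rfl fun i _ => ?_
        rw [mul_left_comm]
        congr 1
        rw [Finset.mul_sum]
        refine Finset.sum_congr rfl fun e _ => ?_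
        ring }
  let W := LinearMap.ker φ
  have hW : Fintype.card σ ≤ finrank L W + s := by
    have h1 := LinearMap.finrank_range_add_finrank_ker φ
    have h2 := Submodule.finrank_le (LinearMap.range φ)
    rw [Module.finrank_fintype_fun_eq_card, Fintype.card_fin] at h2
    rw [Module.finrank_fintype_fun_eq_card] at h1
    change _ + finrank L W = _ at h1
    omega
  have hW0 : ∀ u ∈ W, (M (ι x + u)).det = 0 := by
    intro u hu
    apply Matrix.exists_vecMul_eq_zero_iff.1
    refine ⟨α, hα0, ?_⟩
    funext j
    have h1 := congrFun hα j
    have h2 : (∑ i, α i * ∑ e, ψ (coeff (Finsupp.single e 1) (A i j)) * u e) = 0 :=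
      congrFun (show φ u = 0 from LinearMap.mem_ker.1 hu) j
    simp only [Matrix.vecMul, dotProduct, Pi.zero_apply] at h1 ⊢
    have h3 : ∀ i, M (ι x + u) i j =
        M (ι x) i j + ∑ e, ψ (coeff (Finsupp.single e 1) (A i j)) * u e := fun i =>
      eval₂_add_of_totalDegree_le_one ψ (A i j) (hA i j) (ι x) u
    simp only [h3, mul_add, Finset.sum_add_distrib, h1, h2, add_zero]
  refine ⟨red (k := k) W, ?_, ?_⟩
  · have := finrank_red (k := k) W
    omega
  · rintro w ⟨v, hv, hvw⟩
    have h1 := hW0 _ hv
    have h2 : ι x + (fun i => algebraMap (PowerSeries k) L (v i)) = ι (x + v) := by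
      funext i
      simp [ι]
    rw [h2, hMι] at h1
    have h3 : eval (x + v) P = 0 := hinj (by rw [h1, map_zero])
    have h4 := constantCoeff_eval P (x + v)
    rw [h3, map_zero, hPf] at h4
    have h5 : x₀ + w = fun i => PowerSeries.constantCoeff ((x + v) i) := by
      funext i
      simp [hx0, hvw]
    rw [h5, ← h4]

end Pool.Agent.H61.BD
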