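import Pool.Agent.H61.BD.Border

/-!
# Points over extension fields

`exists_subspace_ext`: the statement `exists_subspace` for points over an extension field.
-/

namespace Pool.Agent.H61.BD

open MvPolynomial Finset Module
open Pool.Agent.H53.AC (SpecializesTo)
open Pool.Agent.H10.PerSL (exists_psi hensel constantCoeff_eval)

universe u v

/-- Polynomials over `k(ε)` with coefficients defined at `ε = 0`, as polynomials over `K[[ε]]`,
where `K` is an extension field of `k`. -/
theorem exists_lift_ext {k : Type u} [Field k] {K : Type u} [Field K] [Algebra k K]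
    {L : Type u} [Field L] [Algebra (PowerSeries K) L]
    (hinj : Function.Injective (algebraMap (PowerSeries K) L)) {σ : Type v}
    {f : MvPolynomial σ k} {F : MvPolynomial σ (RatFunc k)}
    (hF : ∀ m, SpecializesTo (coeff m F) (coeff m f)) :
    ∃ (ψ : RatFunc k →+* L) (P : MvPolynomial σ (PowerSeries K)),
      map (algebraMap (PowerSeries K) L) P = map ψ F ∧
      map (PowerSeries.constantCoeff (R := K)) P = map (algebraMap k K) f := by
  classical
  obtain ⟨ψ, hψ⟩ := exists_psi (k := k) (K := K) (L := L) hinj one_pos
  choose b hb using fun m => hψ _ _ (hF m)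
  let s := F.support ∪ f.support
  refine ⟨ψ, ∑ m ∈ s, monomial m (PowerSeries.C (algebraMap k K (coeff m f)) +
    PowerSeries.X * b m), ?_, ?_⟩
  · ext m
    rw [coeff_map, coeff_map, coeff_sum, map_sum]
    simp only [coeff_monomial]
    by_cases hm : m ∈ s
    · rw [Finset.sum_eq_single m]
      · rw [if_pos rfl, hb m, pow_one]
      · intro b' _ hb'; rw [if_neg hb', map_zero]
      · intro h; exact absurd hm h
    · rw [Finset.sum_eq_zero]
      · have : coeff m F = 0 := by
          by_contra h
          exact hm (Finset.mem_union_left _ (mem_support_iff.2 h))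
        rw [this, map_zero]
      · intro b' hb'
        rw [if_neg, map_zero]
        rintro rfl
        exact hm hb'
  · ext m
    rw [coeff_map, coeff_map, coeff_sum, map_sum]
    simp only [coeff_monomial]
    by_cases hm : m ∈ s
    · rw [Finset.sum_eq_single m]
      · rw [if_pos rfl]; simp
      · intro b' _ hb'; rw [if_neg hb', map_zero]
      · intro h; exact absurd hm h
    · rw [Finset.sum_eq_zero]
      · have : coeff m f = 0 := by
          by_contra h
          exact hm (Finset.mem_union_right _ (mem_support_iff.2 h))
        rw [this, map_zero]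
      · intro b' hb'
        rw [if_neg, map_zero]
        rintro rfl
        exact hm hb'

/-- If `f` over `k` has border determinantal complexity at most `s` and `K` is an extension field
of `k`, then through every zero of `f` over `K` at which some partial derivative does not vanish
there is an affine subspace over `K` of codimension at most `s` on which `f` vanishes. -/
theorem exists_subspace_ext {k : Type u} [Field k] {K : Type u} [Field K] [Algebra k K]
    {σ : Type v} [Fintype σ] [DecidableEq σ]
    {f : MvPolynomial σ k} {s : ℕ} (hf : BorderDetLE f s) (x₀ : σ → K) (c : σ)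
    (h0 : eval x₀ (map (algebraMap k K) f) = 0)
    (hc : eval x₀ (pderiv c (map (algebraMap k K) f)) ≠ 0) :
    ∃ U : Submodule K (σ → K), Fintype.card σ ≤ finrank K U + s ∧
      ∀ u ∈ U, eval (x₀ + u) (map (algebraMap k K) f) = 0 := by
  obtain ⟨F, hF, A, hA, hdet⟩ := hf
  let L := FractionRing (PowerSeries K)
  have hinj : Function.Injective (algebraMap (PowerSeries K) L) :=
    IsFractionRing.injective (PowerSeries K) L
  obtain ⟨ψ, P, hPF, hPf⟩ := exists_lift_ext (K := K) (L := L) hinj hF
  obtain ⟨x, hx, hx0⟩ := hensel_one P x₀ c (by rw [hPf]; exact h0) (by rw [hPf]; exact hc)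
  let ι : (σ → PowerSeries K) → (σ → L) := fun v i => algebraMap (PowerSeries K) L (v i)
  let M : (σ → L) → Matrix (Fin s) (Fin s) L := fun y => Matrix.of fun i j => eval₂ ψ y (A i j)
  have hM : ∀ y, (M y).det = eval₂ ψ y F := by
    intro y
    have h1 : M y = (eval₂Hom ψ y).mapMatrix A := by
      ext i j; rfl
    rw [h1, ← RingHom.map_det, hdet]
    rfl
  have hMι : ∀ v : σ → PowerSeries K, (M (ι v)).det = algebraMap (PowerSeries K) L (eval v P) := by
    intro v
    rw [hM, ← eval_map, ← hPF, eval_map, ← eval₂_id, eval₂_comp_left]
    rfl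
  have hsing : (M (ι x)).det = 0 := by rw [hMι, hx, map_zero]
  obtain ⟨α, hα0, hα⟩ := Matrix.exists_vecMul_eq_zero_iff.2 hsing
  let φ : (σ → L) →ₗ[L] (Fin s → L) :=
    { toFun := fun u j => ∑ i, α i * ∑ e, ψ (coeff (Finsupp.single e 1) (A i j)) * u e
      map_add' := by
        intro u w
        funext j
        simp only [Pi.add_apply, mul_add, Finset.sum_add_distrib]
      map_smul' := by
        intro c u
        funext j
        simp only [Pi.smul_apply, smul_eq_mul, RingHom.id_apply]
        rw [Finset.mul_sum]
        refine Finset.sum_congr rfl fun i _ => ?_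
        rw [mul_left_comm]
        congr 1
        rw [Finset.mul_sum]
        refine Finset.sum_congr rfl fun e _ => ?_
        ring }
  let W := LinearMap.ker φ
  have hW : Fintype.card σ ≤ finrank L W + s := by
    have h1 := LinearMap.finrank_range_add_finrank_ker φ
    have h2 := Submodule.finrank_le (LinearMap.range φ)
    rw [Module.finrank_fintype_fun_eq_card, Fintype.card_fin] at h2
    rw [Module.finrank_fintype_fun_eq_card] at h1
    change _ + finrank L W = _ at h1
    omega
  have hW0 : ∀ u ∈ W, (M (ι x + u)).det = 0 := by
    intro u hu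
    apply Matrix.exists_vecMul_eq_zero_iff.1
    refine ⟨α, hα0, ?_⟩
    funext j
    have h1 := congrFun hα j
    have h2 : (∑ i, α i * ∑ e, ψ (coeff (Finsupp.single e 1) (A i j)) * u e) = 0 :=
      congrFun (show φ u = 0 from LinearMap.mem_ker.1 hu) j
    simp only [Matrix.vecMul, dotProduct, Pi.zero_apply] at h1 ⊢
    have h3 : ∀ i, M (ι x + u) i j =
        M (ι x) i j + ∑ e, ψ (coeff (Finsupp.single e 1) (A i j)) * u e := fun i =>
      eval₂_add_of_totalDegree_le_one ψ (A i j) (hA i j) (ι x) u
    simp only [h3, mul_add, Finset.sum_add_distrib, h1, h2, add_zero]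
  refine ⟨red (k := K) W, ?_, ?_⟩
  · have := finrank_red (k := K) W
    omega
  · rintro w ⟨v, hv, hvw⟩
    have h1 := hW0 _ hv
    have h2 : ι x + (fun i => algebraMap (PowerSeries K) L (v i)) = ι (x + v) := by
      funext i
      simp [ι]
    rw [h2, hMι] at h1
    have h3 : eval (x + v) P = 0 := hinj (by rw [h1, map_zero])
    have h4 := constantCoeff_eval P (x + v)
    rw [h3, map_zero, hPf] at h4
    have h5 : x₀ + w = fun i => PowerSeries.constantCoeff ((x + v) i) := by
      funext i
      simp [hx0, hvw]
    rw [h5, ← h4]

end Pool.Agent.H61.BD
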