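import Pool.Agent.H61.BD.Perm

/-!
# The Hessian of the permanent at a point with labels

The point has the row `o` equal to `q`, the column `o` equal to `r`, all other entries `1`, where
`q` and `r` vanish at `o` and have sum zero. `hess`: for a matrix `u` with zero row sums and column
sums, vanishing on the row and the column of `o`, the second order term of the permanent at this
point in the direction `u` is a nonzero multiple of `∑ r_a q_i u_{a,i} ^ 2`.
-/

namespace Pool.Agent.H61.BD

open Finset Equiv

section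

variable {α : Type*} [Fintype α] [DecidableEq α] {K : Type*} [Field K] [CharZero K]

open Classical in
/-- Sums over the permutations fixing `o` of a function of the values on a tuple. -/
theorem exists_fix_sum (K : Type*) [Field K] [CharZero K] (κ : Type*) [Fintype κ]
    [DecidableEq κ] (o : α) :
    ∃ c : K, c ≠ 0 ∧ ∀ i : κ → α, Function.Injective i → (∀ r, i r ≠ o) →
      ∀ F : (κ → α) → K, (∀ a, (∃ r, a r = o) → F a = 0) →
      ∑ σ ∈ univ.filter (fun σ : Perm α => σ o = o), F (fun r => σ (i r)) =
        c * ∑ a : κ → α, if Function.Injective a then F a else 0 := by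
  by_cases h : ∃ i₀ : κ → α, Function.Injective i₀ ∧ ∀ r, i₀ r ≠ o
  · obtain ⟨i₀, h1, h2⟩ := h
    refine ⟨cntA o i₀ i₀, ?_, fun i hi hio F hF => ?_⟩
    · have h3 : cntA o i₀ i₀ ≠ 0 := by
        rw [cntA, Finset.card_ne_zero]
        exact ⟨1, by simp⟩
      exact Nat.cast_ne_zero.2 h3
    · rw [← Finset.sum_fiberwise (univ.filter (fun σ : Perm α => σ o = o))
        (fun σ : Perm α => (fun r => σ (i r))), Finset.mul_sum]
      refine Finset.sum_congr rfl fun a _ => ?_
      have e1 : ∑ σ ∈ (univ.filter (fun σ : Perm α => σ o = o)).filter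
          (fun σ : Perm α => (fun r => σ (i r)) = a), F (fun r => σ (i r)) =
          (cntA o i a : K) * F a := by
        rw [cntA, ← nsmul_eq_mul, ← Finset.sum_const]
        refine Finset.sum_congr ?_ ?_
        · ext σ
          simp [funext_iff]
        · intro σ hσ
          simp only [mem_filter, mem_univ, true_and] at hσ
          rw [show (fun r => σ (i r)) = a from funext hσ.2]
      rw [e1]
      by_cases ha : ∃ r, a r = o
      · rw [hF a ha]; simp
      push Not at ha
      by_cases hai : Function.Injective a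
      · rw [if_pos hai, cntA_const hi hio hai ha h1 h2 h1 h2]
      · rw [if_neg hai, mul_zero]
        have : cntA o i a = 0 := by
          rw [cntA, Finset.card_eq_zero]
          apply Finset.filter_eq_empty_iff.2
          intro σ _ hσ
          apply hai
          intro r r' hrr
          rw [← hσ.2, ← hσ.2] at hrr
          exact hi (σ.injective hrr)
        rw [this]; simp
  · refine ⟨1, one_ne_zero, ?_⟩
    intro i hi hio
    exact absurd ⟨i, hi, hio⟩ h

/-- The permutations mapping `c` to `o`, in terms of those fixing `o`. -/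
theorem sum_swap {o c : α} (hc : c ≠ o) (G : Perm α → K) :
    ∑ σ ∈ univ.filter (fun σ : Perm α => σ c = o), G σ =
      ∑ τ ∈ univ.filter (fun τ : Perm α => τ o = o), G (τ * swap o c) := by
  refine Finset.sum_nbij' (fun σ => σ * swap o c) (fun τ => τ * swap o c) ?_ ?_ ?_ ?_ ?_
  · intro σ hσ
    simp only [mem_filter, mem_univ, true_and] at hσ ⊢
    simp [Perm.mul_apply, hσ]
  · intro σ hσ
    simp only [mem_filter, mem_univ, true_and] at hσ ⊢
    simp [Perm.mul_apply, hσ]
  · intro σ _
    simp [mul_assoc]
  · intro σ _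
    simp [mul_assoc]
  · intro σ _
    simp [mul_assoc]

variable {o : α} {q r : α → K}

/-- The weight of a permutation. -/
def wl (o : α) (q r : α → K) (σ : Perm α) : K := q (σ⁻¹ o) * r (σ o)

theorem sum_wl_mul (hq : q o = 0) (G : Perm α → K) :
    ∑ σ : Perm α, wl o q r σ * G σ =
      ∑ c ∈ univ.erase o, q c * ∑ τ ∈ univ.filter (fun τ : Perm α => τ o = o),
        r (τ c) * G (τ * swap o c) := by
  rw [← Finset.sum_fiberwise univ (fun σ : Perm α => σ⁻¹ o),
    ← Finset.add_sum_erase univ _ (mem_univ o)]
  have h0 : ∑ σ ∈ univ.filter (fun σ : Perm α => σ⁻¹ o = o), wl o q r σ * G σ = 0 := by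
    refine Finset.sum_eq_zero fun σ hσ => ?_
    rw [Finset.mem_filter] at hσ
    rw [wl, hσ.2, hq]
    ring
  rw [h0, zero_add]
  refine Finset.sum_congr rfl fun c hc => ?_
  have hco : c ≠ o := Finset.ne_of_mem_erase hc
  have h1 : univ.filter (fun σ : Perm α => σ⁻¹ o = c) =
      univ.filter (fun σ : Perm α => σ c = o) := by
    ext σ
    simp only [mem_filter, mem_univ, true_and]
    rw [Perm.inv_eq_iff_eq, eq_comm]
  rw [h1, Finset.mul_sum, sum_swap hco]
  refine Finset.sum_congr rfl fun τ hτ => ?_
  rw [Finset.mem_filter] at hτ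
  have h2 : (τ * swap o c)⁻¹ o = c := by
    rw [Perm.inv_eq_iff_eq]
    simp [Perm.mul_apply, hτ.2]
  have h3 : (τ * swap o c) o = τ c := by simp [Perm.mul_apply]
  rw [wl, h2, h3]
  ring

/-- The point lies on the hypersurface. -/
theorem sum_wl (hq : q o = 0) (hr : r o = 0) (hqs : ∑ i, q i = 0) (hrs : ∑ a, r a = 0) :
    ∑ σ : Perm α, wl o q r σ = 0 := by
  classical
  obtain ⟨C, hC, h⟩ := exists_fix_sum K (Fin 1) o
  have h1 := sum_wl_mul (r := r) hq (fun _ => (1 : K))
  simp only [mul_one] at h1
  rw [h1]
  refine Finset.sum_eq_zero fun c hc => ?_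
  have hco : c ≠ o := Finset.ne_of_mem_erase hc
  have h2 := h (fun _ => c) (Function.injective_of_subsingleton _) (fun _ => hco)
    (fun a => r (a 0)) (by
      rintro a ⟨x, hx⟩
      have : x = 0 := Subsingleton.elim _ _
      subst this
      rw [hx, hr])
  rw [sum_one (fun a => r a), hrs, mul_zero] at h2
  rw [h2, mul_zero]

/-- The second order term. -/
theorem hess (hq : q o = 0) (hr : r o = 0) (hqs : ∑ i, q i = 0) (hrs : ∑ a, r a = 0)
    {u : α → α → K} (hur : ∀ j, u o j = 0) (huc : ∀ i, u i o = 0)
    (h : ∀ t : K, ∑ σ : Perm α, wl o q r σ * ∏ i, (1 + t * u (σ i) i) = 0)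
    (hrow : ∀ a, ∑ i, u a i = 0) (hcol : ∀ i, ∑ a, u a i = 0) :
    ∑ a, ∑ i, r a * q i * u a i ^ 2 = 0 := by
  classical
  obtain ⟨C, hC, hfix⟩ := exists_fix_sum K (Fin 3) o
  -- the coefficient of `t ^ 2`
  have h1 : ∑ σ : Perm α, wl o q r σ *
      (∏ i, (1 + Polynomial.X * Polynomial.C (u (σ i) i))).coeff 2 = 0 := by
    have h1 : ∑ σ : Perm α, Polynomial.C (wl o q r σ) *
        ∏ i, (1 + Polynomial.X * Polynomial.C (u (σ i) i)) = 0 := by
      apply Polynomial.funext
      intro t
      rw [Polynomial.eval_finsetSum, Polynomial.eval_zero, ← h t]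
      refine Finset.sum_congr rfl fun σ _ => ?_
      rw [Polynomial.eval_mul, Polynomial.eval_C, Polynomial.eval_prod]
      congr 1
      refine Finset.prod_congr rfl fun i _ => ?_
      simp only [Polynomial.eval_add, Polynomial.eval_one, Polynomial.eval_mul,
        Polynomial.eval_X, Polynomial.eval_C]
    have h2 := congrArg (fun P => Polynomial.coeff P 2) h1
    simpa [Polynomial.finsetSum_coeff] using h2
  have h1' : ∑ i : Fin 2 → α, (if Function.Injective i then
      ∑ σ : Perm α, wl o q r σ * (u (σ (i 0)) (i 0) * u (σ (i 1)) (i 1)) else 0) = 0 := by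
    have : (2 : K) * ∑ σ : Perm α, wl o q r σ *
        (∏ i, (1 + Polynomial.X * Polynomial.C (u (σ i) i))).coeff 2 = 0 := by rw [h1, mul_zero]
    rw [Finset.mul_sum] at this
    refine Eq.trans ?_ this
    have e1 : ∀ σ : Perm α, 2 * (wl o q r σ *
        (∏ i, (1 + Polynomial.X * Polynomial.C (u (σ i) i))).coeff 2) =
        ∑ i : Fin 2 → α, (if Function.Injective i then
          wl o q r σ * (u (σ (i 0)) (i 0) * u (σ (i 1)) (i 1)) else 0) := by
      intro σ
      rw [mul_left_comm, (coeff_prod (fun i => u (σ i) i) univ).2.2.1]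
      have e2 := sum_pair (fun i => u (σ i) i) (fun i => u (σ i) i)
      have e3 : ∀ i, u (σ i) i * u (σ i) i = u (σ i) i ^ 2 := fun i => by ring
      simp only [e3] at e2
      rw [sq (∑ i, u (σ i) i), ← e2, Finset.mul_sum]
      refine Finset.sum_congr rfl fun i _ => ?_
      split_ifs <;> simp
    simp only [e1]
    rw [Finset.sum_comm]
    refine Finset.sum_congr rfl fun i _ => ?_
    split_ifs <;> simp
  -- the sum over the permutations
  have h2 : ∀ i : Fin 2 → α, Function.Injective i →
      ∑ σ : Perm α, wl o q r σ * (u (σ (i 0)) (i 0) * u (σ (i 1)) (i 1)) =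
      -(2 * C) * (q (i 0) + q (i 1)) * ∑ a, r a * (u a (i 0) * u a (i 1)) := by
    intro i hi
    by_cases h0 : i 0 = o
    · have : ∀ a, u a (i 0) = 0 := fun a => by rw [h0]; exact huc a
      simp [this]
    by_cases h0' : i 1 = o
    · have : ∀ a, u a (i 1) = 0 := fun a => by rw [h0']; exact huc a
      simp [this]
    have h01 : i 0 ≠ i 1 := fun hh => absurd (hi hh) (by decide)
    rw [sum_wl_mul hq]
    have key : ∀ c ∈ univ.erase o, q c * ∑ τ ∈ univ.filter (fun τ : Perm α => τ o = o),
        r (τ c) * (u ((τ * swap o c) (i 0)) (i 0) * u ((τ * swap o c) (i 1)) (i 1)) =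
        (2 * C) * (∑ a, r a * (u a (i 0) * u a (i 1))) *
          (q c - (if c = i 0 then q c else 0) - (if c = i 1 then q c else 0)) := by
      intro c hc
      have hco : c ≠ o := Finset.ne_of_mem_erase hc
      by_cases hc0 : c = i 0
      · have hc1 : c ≠ i 1 := fun hh => h01 (hc0.symm.trans hh)
        rw [if_pos hc0, if_neg hc1, sub_self, sub_zero, mul_zero]
        rw [Finset.sum_eq_zero, mul_zero]
        intro τ hτ
        rw [Finset.mem_filter] at hτ
        have : (τ * swap o c) (i 0) = o := by simp [Perm.mul_apply, ← hc0, hτ.2]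
        rw [this, hur]; ring
      by_cases hc1 : c = i 1
      · rw [if_neg hc0, if_pos hc1, sub_zero, sub_self, mul_zero]
        rw [Finset.sum_eq_zero, mul_zero]
        intro τ hτ
        rw [Finset.mem_filter] at hτ
        have : (τ * swap o c) (i 1) = o := by simp [Perm.mul_apply, ← hc1, hτ.2]
        rw [this, hur]; ring
      rw [if_neg hc0, if_neg hc1, sub_zero, sub_zero]
      have s0 : swap o c (i 0) = i 0 := swap_apply_of_ne_of_ne h0 (fun hh => hc0 hh.symm)
      have s1 : swap o c (i 1) = i 1 := swap_apply_of_ne_of_ne h0' (fun hh => hc1 hh.symm)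
      have e1 := hfix ![i 0, i 1, c] (injective_triple.2 ⟨h01, fun hh => hc0 hh.symm,
        fun hh => hc1 hh.symm⟩) (by
          intro x
          fin_cases x
          · exact h0
          · exact h0'
          · exact hco) (fun a => u (a 0) (i 0) * u (a 1) (i 1) * r (a 2)) (by
          rintro a ⟨x, hx⟩
          fin_cases x
          · simp only [Fin.zero_eta] at hx; simp [hx, hur]
          · simp only [Fin.mk_one] at hx; simp [hx, hur]
          · simp only [Fin.reduceFinMk] at hx; simp [hx, hr])
      have e2 := sum_triple (fun a => u a (i 0)) (fun a => u a (i 1)) (fun a => r a)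
      simp only [hcol, hrs, zero_mul, mul_zero, sub_zero, zero_add] at e2
      rw [e2] at e1
      have e3 : ∑ τ ∈ univ.filter (fun τ : Perm α => τ o = o),
          r (τ c) * (u ((τ * swap o c) (i 0)) (i 0) * u ((τ * swap o c) (i 1)) (i 1)) =
          ∑ τ ∈ univ.filter (fun τ : Perm α => τ o = o),
            (u (τ (i 0)) (i 0) * u (τ (i 1)) (i 1) * r (τ c)) := by
        refine Finset.sum_congr rfl fun τ _ => ?_
        rw [Perm.mul_apply, Perm.mul_apply, s0, s1]
        ring
      have e4 : ∑ τ ∈ univ.filter (fun τ : Perm α => τ o = o),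
            (u (τ (i 0)) (i 0) * u (τ (i 1)) (i 1) * r (τ c)) =
            C * (2 * ∑ a, u a (i 0) * u a (i 1) * r a) := by
        rw [← e1]
        rfl
      have e5 : ∑ a, u a (i 0) * u a (i 1) * r a = ∑ a, r a * (u a (i 0) * u a (i 1)) :=
        Finset.sum_congr rfl fun a _ => by ring
      rw [e3, e4, e5]
      ring
    rw [Finset.sum_congr rfl key, ← Finset.mul_sum]
    have e6 : ∑ c ∈ univ.erase o,
        (q c - (if c = i 0 then q c else 0) - (if c = i 1 then q c else 0)) =
        -(q (i 0) + q (i 1)) := by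
      have e7 := Finset.add_sum_erase univ
        (fun c => q c - (if c = i 0 then q c else 0) - (if c = i 1 then q c else 0)) (mem_univ o)
      have e8 : q o - (if o = i 0 then q o else 0) - (if o = i 1 then q o else 0) = 0 := by
        simp [hq]
      simp only [e8, zero_add] at e7
      rw [e7, Finset.sum_sub_distrib, Finset.sum_sub_distrib, hqs,
        Finset.sum_ite_eq' univ (i 0), Finset.sum_ite_eq' univ (i 1)]
      simp
      ring
    rw [e6]
    ring
  -- conclusion
  have h3 : ∑ i : Fin 2 → α, (if Function.Injective i then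
      (∑ a, r a * (q (i 0) * u a (i 0) * u a (i 1) + u a (i 0) * (q (i 1) * u a (i 1)))) else 0)
      = 0 := by
    have e1 : ∑ i : Fin 2 → α, (if Function.Injective i then
      ∑ σ : Perm α, wl o q r σ * (u (σ (i 0)) (i 0) * u (σ (i 1)) (i 1)) else 0) =
      -(2 * C) * ∑ i : Fin 2 → α, (if Function.Injective i then
      (∑ a, r a * (q (i 0) * u a (i 0) * u a (i 1) + u a (i 0) * (q (i 1) * u a (i 1)))) else 0)
      := by
      rw [Finset.mul_sum]
      refine Finset.sum_congr rfl fun i _ => ?_
      split_ifs with hi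
      · rw [h2 i hi, mul_assoc, Finset.mul_sum]
        congr 1
        refine Finset.sum_congr rfl fun a _ => ?_
        ring
      · simp
    rw [h1'] at e1
    exact (mul_eq_zero.1 e1.symm).resolve_left (neg_ne_zero.2 (mul_ne_zero two_ne_zero hC))
  have h4 : ∀ a, ∑ i : Fin 2 → α, (if Function.Injective i then
      (q (i 0) * u a (i 0) * u a (i 1) + u a (i 0) * (q (i 1) * u a (i 1))) else 0) =
      -(2 * ∑ i, q i * u a i ^ 2) := by
    intro a
    have e1 := sum_pair (fun i => q i * u a i) (fun i => u a i)
    have e2 := sum_pair (fun i => u a i) (fun i => q i * u a i)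
    simp only [hrow, mul_zero, zero_mul, zero_sub] at e1 e2
    have e3 : ∀ i, q i * u a i * u a i = q i * u a i ^ 2 := fun i => by ring
    have e4 : ∀ i, u a i * (q i * u a i) = q i * u a i ^ 2 := fun i => by ring
    simp only [e3] at e1
    simp only [e4] at e2
    have e5 : ∑ i : Fin 2 → α, (if Function.Injective i then
      (q (i 0) * u a (i 0) * u a (i 1) + u a (i 0) * (q (i 1) * u a (i 1))) else 0) =
      ∑ i : Fin 2 → α, (if Function.Injective i then
        q (i 0) * u a (i 0) * u a (i 1) else 0) +
      ∑ i : Fin 2 → α, (if Function.Injective i then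
        u a (i 0) * (q (i 1) * u a (i 1)) else 0) := by
      rw [← Finset.sum_add_distrib]
      refine Finset.sum_congr rfl fun i _ => ?_
      split_ifs <;> simp
    rw [e5, e1, e2]
    ring
  have h5 : ∑ a, r a * ∑ i : Fin 2 → α, (if Function.Injective i then
      (q (i 0) * u a (i 0) * u a (i 1) + u a (i 0) * (q (i 1) * u a (i 1))) else 0) = 0 := by
    refine Eq.trans ?_ h3
    simp only [Finset.mul_sum]
    rw [Finset.sum_comm]
    refine Finset.sum_congr rfl fun i _ => ?_
    split_ifs with hi
    · rfl
    · simp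
  simp only [h4] at h5
  have h6 : ∑ a, r a * -(2 * ∑ i, q i * u a i ^ 2) =
      -2 * ∑ a, ∑ i, r a * q i * u a i ^ 2 := by
    rw [Finset.mul_sum]
    refine Finset.sum_congr rfl fun a _ => ?_
    have : r a * -(2 * ∑ i, q i * u a i ^ 2) = -2 * (r a * ∑ i, q i * u a i ^ 2) := by ring
    rw [this, Finset.mul_sum]
    congr 1
    exact Finset.sum_congr rfl fun i _ => by ring
  rw [h6] at h5
  exact (mul_eq_zero.1 h5).resolve_left (by norm_num)

end

end Pool.Agent.H61.BD
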