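import Mathlib

/-!
# Linear subspaces with vanishing sums of squares and cubes

`three_mul_finrank_le`: over a field of characteristic zero, a linear subspace `U` of `K^ι` such
that `∑ u_e ^ 2 = 0` and `∑ u_e ^ 3 = 0` for all `u ∈ U` has dimension at most `|ι| / 3`.
The proof uses a partition theorem of Edmonds type for linear subspaces of `K^ι`.
-/

namespace Pool.Agent.H61.BD

open Module Finset

variable {K : Type*} [Field K] {ι : Type*}

/-- The vectors vanishing on `Y`. -/
def van (K : Type*) [Field K] {ι : Type*} (Y : Finset ι) : Submodule K (ι → K) where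
  carrier := {f | ∀ e ∈ Y, f e = 0}
  add_mem' := by
    intro a b ha hb e he
    simp [ha e he, hb e he]
  zero_mem' := by intro e _; rfl
  smul_mem' := by
    intro c a ha e he
    simp [ha e he]

theorem mem_van {Y : Finset ι} {f : ι → K} : f ∈ van K Y ↔ ∀ e ∈ Y, f e = 0 := Iff.rfl

theorem van_empty : van K (∅ : Finset ι) = ⊤ := by
  ext f; simp [mem_van]

theorem van_anti {A B : Finset ι} (h : A ⊆ B) : van K B ≤ van K A :=
  fun _ hf e he => hf e (h he)

theorem van_union [DecidableEq ι] (A B : Finset ι) : van K (A ∪ B) = van K A ⊓ van K B := by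
  ext f
  simp only [mem_van, Submodule.mem_inf, Finset.mem_union]
  constructor
  · intro h; exact ⟨fun e he => h e (Or.inl he), fun e he => h e (Or.inr he)⟩
  · rintro ⟨h1, h2⟩ e (he | he)
    · exact h1 e he
    · exact h2 e he

/-- The dimension of the restriction of `U` to the coordinates in `Y`. -/
noncomputable def rk (U : Submodule K (ι → K)) (Y : Finset ι) : ℤ :=
  (finrank K U : ℤ) - finrank K (U ⊓ van K Y : Submodule K (ι → K))

variable [Fintype ι]

theorem rk_empty (U : Submodule K (ι → K)) : rk U ∅ = 0 := by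
  rw [rk, van_empty, inf_top_eq, sub_self]

theorem rk_mono (U : Submodule K (ι → K)) {A B : Finset ι} (h : A ⊆ B) : rk U A ≤ rk U B := by
  have : finrank K (U ⊓ van K B : Submodule K (ι → K)) ≤
      finrank K (U ⊓ van K A : Submodule K (ι → K)) :=
    Submodule.finrank_mono (inf_le_inf_left _ (van_anti h))
  simp only [rk]; omega

theorem rk_nonneg (U : Submodule K (ι → K)) (A : Finset ι) : 0 ≤ rk U A := by
  rw [← rk_empty U]; exact rk_mono U (Finset.empty_subset _)

theorem rk_submod [DecidableEq ι] (U : Submodule K (ι → K)) (A B : Finset ι) :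
    rk U (A ∪ B) + rk U (A ∩ B) ≤ rk U A + rk U B := by
  have h1 := Submodule.finrank_sup_add_finrank_inf_eq (U ⊓ van K A) (U ⊓ van K B)
  have h2 : (U ⊓ van K A) ⊓ (U ⊓ van K B) = U ⊓ van K (A ∪ B) := by
    rw [van_union, inf_inf_inf_comm, inf_idem]
  have h3 : (U ⊓ van K A) ⊔ (U ⊓ van K B) ≤ U ⊓ van K (A ∩ B) :=
    sup_le (inf_le_inf_left _ (van_anti Finset.inter_subset_left))
      (inf_le_inf_left _ (van_anti Finset.inter_subset_right))
  have h4 := Submodule.finrank_mono h3
  rw [h2] at h1
  simp only [rk]; omega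

theorem rk_closure [DecidableEq ι] (U : Submodule K (ι → K)) {A B : Finset ι} {e : ι}
    (hAB : A ⊆ B) (he : e ∉ B) (h : rk U (insert e A) = rk U A) :
    rk U (insert e B) = rk U B := by
  have h1 := rk_submod U (insert e A) B
  have h2 : insert e A ∪ B = insert e B := by
    ext x; simp only [Finset.mem_union, Finset.mem_insert]
    constructor
    · rintro ((h | h) | h)
      · exact Or.inl h
      · exact Or.inr (hAB h)
      · exact Or.inr h
    · rintro (h | h)
      · exact Or.inl (Or.inl h)
      · exact Or.inr h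
  have h3 : insert e A ∩ B = A := by
    ext x; simp only [Finset.mem_inter, Finset.mem_insert]
    constructor
    · rintro ⟨h | h, hB⟩
      · subst h; exact absurd hB he
      · exact h
    · intro h; exact ⟨Or.inr h, hAB h⟩
  rw [h2, h3, h] at h1
  have h4 := rk_mono U (Finset.subset_insert e B)
  omega

theorem rk_inf_van [DecidableEq ι] (U : Submodule K (ι → K)) (X Y : Finset ι) :
    rk (U ⊓ van K X) Y = rk U (X ∪ Y) - rk U X := by
  rw [rk, rk, rk, van_union, inf_assoc]; ring

theorem rk_le_of_le {U S : Submodule K (ι → K)} (h : U ≤ S) (Y : Finset ι) : rk U Y ≤ rk S Y := by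
  have h1 := Submodule.finrank_sup_add_finrank_inf_eq U (S ⊓ van K Y)
  have h2 : U ⊓ (S ⊓ van K Y) = U ⊓ van K Y := by rw [← inf_assoc, inf_eq_left.2 h]
  have h3 : U ⊔ (S ⊓ van K Y) ≤ S := sup_le h inf_le_left
  have h4 := Submodule.finrank_mono h3
  rw [h2] at h1
  simp only [rk]; omega

theorem rk_eq_sup {U S : Submodule K (ι → K)} (h : U ≤ S) (Y : Finset ι) (he : rk U Y = rk S Y) :
    U ⊔ (S ⊓ van K Y) = S := by
  have h1 := Submodule.finrank_sup_add_finrank_inf_eq U (S ⊓ van K Y)
  have h2 : U ⊓ (S ⊓ van K Y) = U ⊓ van K Y := by rw [← inf_assoc, inf_eq_left.2 h]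
  have h3 : U ⊔ (S ⊓ van K Y) ≤ S := sup_le h inf_le_left
  rw [h2] at h1
  apply Submodule.eq_of_le_of_finrank_eq h3
  simp only [rk] at he; omega

theorem rk_singleton_le (U : Submodule K (ι → K)) (e : ι) : rk U {e} ≤ 1 := by
  classical
  have hk : finrank K (van K {e} : Submodule K (ι → K)) + 1 ≥ finrank K (ι → K) := by
    have h1 := LinearMap.finrank_range_add_finrank_ker (LinearMap.proj e : (ι → K) →ₗ[K] K)
    have h2 : LinearMap.ker (LinearMap.proj e : (ι → K) →ₗ[K] K) = van K {e} := by
      ext f; simp [mem_van]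
    have h3 : finrank K (LinearMap.range (LinearMap.proj e : (ι → K) →ₗ[K] K)) ≤ 1 := by
      have := Submodule.finrank_le (LinearMap.range (LinearMap.proj e : (ι → K) →ₗ[K] K))
      simpa using this
    rw [h2] at h1
    omega
  have h1 := Submodule.finrank_sup_add_finrank_inf_eq U (van K {e})
  have h2 := Submodule.finrank_le (U ⊔ van K {e})
  simp only [rk]; omega

theorem exists_ne_of_rk_pos {U : Submodule K (ι → K)} {e : ι} (h : 0 < rk U {e}) :
    ∃ u ∈ U, u e ≠ 0 := by
  by_contra hcon
  push Not at hcon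
  have : U ⊓ van K {e} = U := by
    apply inf_eq_left.2
    intro u hu
    simpa [mem_van] using hcon u hu
  rw [rk, this] at h
  omega

/-- Edmonds' partition theorem for linear subspaces of `K^ι`: if `|Y| ≤ ∑ rk (U i) Y` for all
`Y ⊆ E` then `E` is the disjoint union of sets `E_i` such that `U i` restricts onto `K^{E_i}`. -/
theorem partition [DecidableEq ι] {κ : Type*} [Fintype κ] [DecidableEq κ] [Nonempty κ]
    (E : Finset ι) :
    ∀ U : κ → Submodule K (ι → K), (∀ Y ⊆ E, (Y.card : ℤ) ≤ ∑ i, rk (U i) Y) →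
    ∃ c : ι → κ, ∀ i (g : ι → K), ∃ u ∈ U i, ∀ e ∈ E, c e = i → u e = g e := by
  induction E using Finset.induction_on with
  | empty =>
    intro U _
    obtain ⟨k⟩ := (inferInstance : Nonempty κ)
    exact ⟨fun _ => k, fun i _ => ⟨0, (U i).zero_mem, by simp⟩⟩
  | insert e E he ih =>
    intro U hU
    have hU' : ∀ Y ⊆ E, (Y.card : ℤ) ≤ ∑ i, rk (U i) Y := fun Y hY =>
      hU Y (hY.trans (Finset.subset_insert _ _))
    -- some `i` can take the element `e`
    obtain ⟨i, ⟨w, hwU, hwe⟩, hi⟩ : ∃ i, (∃ w ∈ U i, w e ≠ 0) ∧ ∀ Y ⊆ E, (Y.card : ℤ) ≤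
        ∑ j, rk (Function.update U i (U i ⊓ van K {e}) j) Y := by
      by_contra hcon
      push Not at hcon
      have key : ∀ i, ∃ Y ⊆ E, (Y.card : ℤ) = ∑ j, rk (U j) Y ∧
          rk (U i) (insert e Y) = rk (U i) Y := by
        intro i
        by_cases hw : ∃ w ∈ U i, w e ≠ 0
        · obtain ⟨Y, hY, hlt⟩ := hcon i hw
          refine ⟨Y, hY, ?_⟩
          have h1 : ∑ j, rk (Function.update U i (U i ⊓ van K {e}) j) Y =
              (∑ j, rk (U j) Y) - rk (U i) Y + (rk (U i) (insert e Y) - rk (U i) {e}) := by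
            rw [← Finset.add_sum_erase _ _ (Finset.mem_univ i),
              ← Finset.add_sum_erase _ (fun j => rk (U j) Y) (Finset.mem_univ i)]
            have h2 : ∑ x ∈ Finset.univ.erase i,
                rk (Function.update U i (U i ⊓ van K {e}) x) Y =
                ∑ x ∈ Finset.univ.erase i, rk (U x) Y := by
              refine Finset.sum_congr rfl fun x hx => ?_
              rw [Function.update_of_ne (Finset.ne_of_mem_erase hx)]
            rw [h2, Function.update_self, rk_inf_van, ← Finset.insert_eq]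
            ring
          have h3 := rk_singleton_le (U i) e
          have h4 := hU' Y hY
          have h5 := rk_mono (U i) (Finset.subset_insert e Y)
          rw [h1] at hlt
          constructor <;> omega
        · push Not at hw
          refine ⟨∅, Finset.empty_subset _, ?_, ?_⟩
          · simp [rk_empty]
          · have : U i ⊓ van K {e} = U i := by
              apply inf_eq_left.2
              intro u hu
              simpa [mem_van] using hw u hu
            have h6 : insert e (∅ : Finset ι) = {e} := by simp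
            rw [h6, rk_empty, rk, this, sub_self]
      choose Y hYE hYt hYc using key
      -- the union of tight sets is tight
      have htight : ∀ s : Finset κ, ((s.biUnion Y).card : ℤ) = ∑ j, rk (U j) (s.biUnion Y) := by
        intro s
        induction s using Finset.induction_on with
        | empty => simp [rk_empty]
        | insert a s _ ihs =>
          rw [Finset.biUnion_insert]
          have hsub : Y a ∪ s.biUnion Y ⊆ E := Finset.union_subset (hYE a)
            (Finset.biUnion_subset.2 fun x _ => hYE x)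
          have h1 : ∑ j, rk (U j) (Y a ∪ s.biUnion Y) + ∑ j, rk (U j) (Y a ∩ s.biUnion Y) ≤
              ∑ j, rk (U j) (Y a) + ∑ j, rk (U j) (s.biUnion Y) := by
            rw [← Finset.sum_add_distrib, ← Finset.sum_add_distrib]
            exact Finset.sum_le_sum fun j _ => rk_submod _ _ _
          have h2 := hU' _ hsub
          have h3 := hU' (Y a ∩ s.biUnion Y) (Finset.inter_subset_left.trans (hYE a))
          have h4 := Finset.card_union_add_card_inter (Y a) (s.biUnion Y)
          have h5 := hYt a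
          omega
      set Z := Finset.univ.biUnion Y with hZ
      have hZE : Z ⊆ E := Finset.biUnion_subset.2 fun x _ => hYE x
      have hZt := htight Finset.univ
      rw [← hZ] at hZt
      have heZ : e ∉ Z := fun h => he (hZE h)
      have hc : ∀ i, rk (U i) (insert e Z) = rk (U i) Z := fun i =>
        rk_closure _ (Finset.subset_biUnion_of_mem Y (Finset.mem_univ i)) heZ (hYc i)
      have h7 := hU (insert e Z) (Finset.insert_subset_insert _ hZE)
      rw [Finset.card_insert_of_notMem heZ, Finset.sum_congr rfl fun i _ => hc i] at h7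
      push_cast at h7
      omega
    obtain ⟨c, hc⟩ := ih _ hi
    refine ⟨Function.update c e i, fun j g => ?_⟩
    by_cases hj : j = i
    · subst hj
      obtain ⟨u, hu, hug⟩ := hc j (g - (g e / w e) • w)
      rw [Function.update_self] at hu
      refine ⟨(g e / w e) • w + u, (U j).add_mem ((U j).smul_mem _ hwU) hu.1, ?_⟩
      intro f hf hcf
      by_cases hfe : f = e
      · subst hfe
        have : u f = 0 := hu.2 f (Finset.mem_singleton_self f)
        simp [this, div_mul_cancel₀ _ hwe]
      · rw [Function.update_of_ne hfe] at hcf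
        have hf' : f ∈ E := (Finset.mem_insert.1 hf).resolve_left hfe
        have := hug f hf' hcf
        simp [this]
    · obtain ⟨u, hu, hug⟩ := hc j g
      rw [Function.update_of_ne hj] at hu
      refine ⟨u, hu, ?_⟩
      intro f hf hcf
      by_cases hfe : f = e
      · subst hfe
        rw [Function.update_self] at hcf
        exact absurd hcf.symm hj
      · rw [Function.update_of_ne hfe] at hcf
        exact hug f ((Finset.mem_insert.1 hf).resolve_left hfe) hcf

/-! ### Sums of squares and cubes -/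

section

variable [CharZero K] [DecidableEq ι]

theorem sum_mul_eq_zero {U : Submodule K (ι → K)} (h2 : ∀ u ∈ U, ∑ e, u e ^ 2 = 0)
    {u v : ι → K} (hu : u ∈ U) (hv : v ∈ U) : ∑ e, u e * v e = 0 := by
  have h := h2 _ (U.add_mem hu hv)
  have e1 : ∑ e, (u + v) e ^ 2 = ∑ e, u e ^ 2 + 2 * ∑ e, u e * v e + ∑ e, v e ^ 2 := by
    rw [Finset.mul_sum, ← Finset.sum_add_distrib, ← Finset.sum_add_distrib]
    exact Finset.sum_congr rfl fun e _ => by simp only [Pi.add_apply]; ring
  rw [e1, h2 u hu, h2 v hv] at h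
  have h0 : (2 : K) ≠ 0 := by norm_num
  have h' : (2 : K) * ∑ e, u e * v e = 0 := by linear_combination h
  exact (mul_eq_zero.1 h').resolve_left h0

theorem sum_mul_mul_eq_zero {U : Submodule K (ι → K)} (h3 : ∀ u ∈ U, ∑ e, u e ^ 3 = 0)
    {u v w : ι → K} (hu : u ∈ U) (hv : v ∈ U) (hw : w ∈ U) : ∑ e, u e * v e * w e = 0 := by
  have a1 := h3 _ (U.add_mem (U.add_mem hu hv) hw)
  have a2 := h3 _ (U.add_mem hu hv)
  have a3 := h3 _ (U.add_mem hu hw)
  have a4 := h3 _ (U.add_mem hv hw)
  have a5 := h3 _ hu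
  have a6 := h3 _ hv
  have a7 := h3 _ hw
  have key : 6 * ∑ e, u e * v e * w e = ∑ e, (u + v + w) e ^ 3 - ∑ e, (u + v) e ^ 3 -
      ∑ e, (u + w) e ^ 3 - ∑ e, (v + w) e ^ 3 + ∑ e, u e ^ 3 + ∑ e, v e ^ 3 + ∑ e, w e ^ 3 := by
    simp only [Finset.mul_sum, ← Finset.sum_add_distrib, ← Finset.sum_sub_distrib]
    exact Finset.sum_congr rfl fun e _ => by simp only [Pi.add_apply]; ring
  rw [a1, a2, a3, a4, a5, a6, a7] at key
  have h0 : (6 : K) ≠ 0 := by norm_num
  have h' : (6 : K) * ∑ e, u e * v e * w e = 0 := by rw [key]; ring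
  exact (mul_eq_zero.1 h').resolve_left h0

/-- The configuration which leads to a contradiction. -/
theorem core {U : Submodule K (ι → K)} {E X : Finset ι} (hX : X ⊆ E) (hX0 : X.Nonempty)
    (hE : ∀ u ∈ U, ∀ e, e ∉ E → u e = 0)
    (h2 : ∀ u ∈ U, ∑ e, u e ^ 2 = 0) (h3 : ∀ u ∈ U, ∑ e, u e ^ 3 = 0)
    {u₀ : ι → K} (hu₀ : u₀ ∈ U) (h1 : ∀ e ∈ X, u₀ e = 1)
    (hY : ∀ Y ⊆ E \ X, (Y.card : ℤ) ≤
      (rk (U ⊔ Submodule.span K {1}) (X ∪ Y) - rk (U ⊔ Submodule.span K {1}) X) +
      2 * (rk U (X ∪ Y) - rk U X)) : False := by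
  set S : Submodule K (ι → K) := U ⊔ Submodule.span K {1} with hS
  let F : Fin 3 → Submodule K (ι → K) := ![S ⊓ van K X, U ⊓ van K X, U ⊓ van K X]
  obtain ⟨c, hc⟩ := partition (E \ X) F (by
    intro Y hYs
    refine (hY Y hYs).trans ?_
    simp only [F, Fin.sum_univ_three, Matrix.cons_val_zero, Matrix.cons_val_one,
      Matrix.cons_val_two, Matrix.tail_cons, Matrix.head_cons, Matrix.cons_val]
    rw [rk_inf_van, rk_inf_van]
    apply le_of_eq; ring)
  obtain ⟨s, hs, hs'⟩ := hc 0 u₀
  obtain ⟨v, hv, hv'⟩ := hc 1 u₀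
  obtain ⟨w, hw, hw'⟩ := hc 2 u₀
  have hs1 : s ∈ S ⊓ van K X := hs
  have hv1 : v ∈ U ⊓ van K X := hv
  have hw1 : w ∈ U ⊓ van K X := hw
  -- the three vectors
  have hvU : u₀ - v ∈ U := U.sub_mem hu₀ hv1.1
  have hwU : u₀ - w ∈ U := U.sub_mem hu₀ hw1.1
  have hsS : u₀ - s ∈ S := S.sub_mem (le_sup_left (a := U) hu₀) hs1.1
  obtain ⟨p, hp, q, hq, hpq⟩ := Submodule.mem_sup.1 hsS
  obtain ⟨a, rfl⟩ := Submodule.mem_span_singleton.1 hq
  have hzero : ∑ e, (u₀ - s) e * (u₀ - v) e * (u₀ - w) e = 0 := by
    rw [← hpq]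
    have e1 : ∑ e, (p + a • (1 : ι → K)) e * (u₀ - v) e * (u₀ - w) e =
        ∑ e, p e * (u₀ - v) e * (u₀ - w) e + a * ∑ e, (u₀ - v) e * (u₀ - w) e := by
      rw [Finset.mul_sum, ← Finset.sum_add_distrib]
      refine Finset.sum_congr rfl fun e _ => ?_
      simp only [Pi.add_apply, Pi.smul_apply, Pi.one_apply, smul_eq_mul]; ring
    rw [e1, sum_mul_mul_eq_zero h3 hp hvU hwU, sum_mul_eq_zero h2 hvU hwU]
    ring
  have hval : ∀ e, (u₀ - s) e * (u₀ - v) e * (u₀ - w) e = if e ∈ X then 1 else 0 := by
    intro e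
    by_cases heX : e ∈ X
    · have a1 : s e = 0 := hs1.2 e heX
      have a2 : v e = 0 := hv1.2 e heX
      have a3 : w e = 0 := hw1.2 e heX
      simp [heX, a1, a2, a3, h1 e heX]
    · rw [if_neg heX]
      by_cases heE : e ∈ E
      · have hmem : e ∈ E \ X := Finset.mem_sdiff.2 ⟨heE, heX⟩
        have h012 : c e = 0 ∨ c e = 1 ∨ c e = 2 := by
          have := (c e).isLt
          rcases h : (c e) with ⟨n, hn⟩
          interval_cases n <;> simp
        rcases h012 with h | h | h
        · have := hs' e hmem h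
          simp [this]
        · have := hv' e hmem h
          simp [this]
        · have := hw' e hmem h
          simp [this]
      · have : (u₀ - v) e = 0 := hE _ hvU e heE
        rw [this]; ring
  rw [Finset.sum_congr rfl fun e _ => hval e] at hzero
  rw [Finset.sum_ite_mem, Finset.univ_inter, Finset.sum_const, nsmul_eq_mul, mul_one] at hzero
  have : X.card = 0 := by exact_mod_cast hzero
  exact hX0.ne_empty (Finset.card_eq_zero.1 this)

theorem three_mul_aux : ∀ (n : ℕ) (E : Finset ι), E.card = n → ∀ U : Submodule K (ι → K),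
    (∀ u ∈ U, ∀ e, e ∉ E → u e = 0) → (∀ u ∈ U, ∑ e, u e ^ 2 = 0) →
    (∀ u ∈ U, ∑ e, u e ^ 3 = 0) → 3 * finrank K U ≤ n := by
  intro n
  induction n using Nat.strong_induction_on with
  | _ n ih =>
  intro E hn U hE h2 h3
  by_contra hcon
  push Not at hcon
  -- the bound for all nonempty sets
  have hbound : ∀ X ⊆ E, X.Nonempty → (X.card : ℤ) ≤ 3 * rk U X - 1 := by
    intro X hX hX0
    have hc1 : X.card ≤ E.card := Finset.card_le_card hX
    have hc2 : 0 < X.card := Finset.card_pos.2 hX0
    have h := ih (E \ X).card (by rw [Finset.card_sdiff_of_subset hX]; omega) (E \ X) rfl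
      (U ⊓ van K X) (by
        intro u hu e he
        by_cases heX : e ∈ X
        · exact hu.2 e heX
        · exact hE u hu.1 e fun heE => he (Finset.mem_sdiff.2 ⟨heE, heX⟩))
      (fun u hu => h2 u hu.1) (fun u hu => h3 u hu.1)
    rw [Finset.card_sdiff_of_subset hX] at h
    simp only [rk]
    omega
  set S : Submodule K (ι → K) := U ⊔ Submodule.span K {1} with hS
  have hUS : U ≤ S := le_sup_left
  have h1S : (1 : ι → K) ∈ S := le_sup_right (a := U) (Submodule.mem_span_singleton_self _)
  -- a nonzero element, a coordinate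
  obtain ⟨e₀, he₀⟩ : E.Nonempty := by
    by_contra hne
    rw [Finset.not_nonempty_iff_eq_empty] at hne
    subst hne
    have : U = ⊥ := by
      rw [eq_bot_iff]
      intro u hu
      rw [Submodule.mem_bot]
      funext e
      exact hE u hu e (Finset.notMem_empty e)
    subst this
    simp at hcon
  have hX1 : ({e₀} : Finset ι) ⊆ E := Finset.singleton_subset_iff.2 he₀
  have hr1 := hbound {e₀} hX1 (Finset.singleton_nonempty _)
  rw [Finset.card_singleton] at hr1
  have hr2 := rk_singleton_le U e₀
  have hr3 := rk_singleton_le S e₀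
  obtain ⟨w, hw, hwe⟩ := exists_ne_of_rk_pos (U := U) (e := e₀) (by push_cast at hr1; omega)
  by_cases hgood : ∀ Y ⊆ E \ {e₀}, (Y.card : ℤ) ≤
      (rk S ({e₀} ∪ Y) - rk S {e₀}) + 2 * (rk U ({e₀} ∪ Y) - rk U {e₀})
  · refine core hX1 (Finset.singleton_nonempty _) hE h2 h3 (U.smul_mem (w e₀)⁻¹ hw) ?_ hgood
    intro e he
    rw [Finset.mem_singleton] at he
    subst he
    simp [inv_mul_cancel₀ hwe]
  · push Not at hgood
    obtain ⟨Y, hY, hlt⟩ := hgood
    set X := {e₀} ∪ Y with hX
    have heY : e₀ ∉ Y := fun h => (Finset.mem_sdiff.1 (hY h)).2 (Finset.mem_singleton_self _)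
    have hXE : X ⊆ E := Finset.union_subset hX1 (hY.trans Finset.sdiff_subset)
    have hXne : X.Nonempty := ⟨e₀, by simp [hX]⟩
    have hXc : X.card = Y.card + 1 := by
      rw [hX, ← Finset.insert_eq, Finset.card_insert_of_notMem heY]
    have hb := hbound X hXE hXne
    have hle := rk_le_of_le hUS X
    have heq : rk U X = rk S X := by push_cast [hXc] at hb; omega
    have hcard : (X.card : ℤ) = 3 * rk U X - 1 := by push_cast [hXc] at hb ⊢; omega
    have hsup := rk_eq_sup hUS X heq
    rw [← hsup] at h1S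
    obtain ⟨u₀, hu₀, v, hv, huv⟩ := Submodule.mem_sup.1 h1S
    refine core hXE hXne hE h2 h3 hu₀ ?_ ?_
    · intro e he
      have h4 : v e = 0 := hv.2 e he
      have h5 := congrFun huv e
      simp only [Pi.add_apply, Pi.one_apply, h4, add_zero] at h5
      exact h5
    · intro Y' hY'
      have hdis : Disjoint X Y' := by
        rw [Finset.disjoint_left]
        intro e he he'
        exact (Finset.mem_sdiff.1 (hY' he')).2 he
      have hsub : X ∪ Y' ⊆ E := Finset.union_subset hXE (hY'.trans Finset.sdiff_subset)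
      have hb' := hbound (X ∪ Y') hsub (hXne.mono Finset.subset_union_left)
      rw [Finset.card_union_of_disjoint hdis] at hb'
      have hle' := rk_le_of_le hUS (X ∪ Y')
      push_cast at hb'
      rw [← hS]
      omega

/-- A linear subspace of `K^ι` on which the sums of the squares and of the cubes of the
coordinates vanish has dimension at most `|ι| / 3`. -/
theorem three_mul_finrank_le (U : Submodule K (ι → K)) (h2 : ∀ u ∈ U, ∑ e, u e ^ 2 = 0)
    (h3 : ∀ u ∈ U, ∑ e, u e ^ 3 = 0) : 3 * finrank K U ≤ Fintype.card ι :=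
  three_mul_aux _ Finset.univ rfl U (fun _ _ e he => absurd (Finset.mem_univ e) he) h2 h3

end

end Pool.Agent.H61.BD
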