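import Mathlib

/-!
# Weighted sums over permutations

The weight of a permutation `σ` of `α` is `1 - |α|` if `σ` fixes the point `o`, and `1` otherwise.
`power_sums`: if `∑ σ, wt σ * ∏ i, (1 + t * u (σ i) i) = 0` for all `t`, where `u` vanishes on the
row and the column of `o`, then the sum of the entries of `u` is zero, and, if all row sums and
column sums of `u` are zero, so are the sums of the squares and of the cubes of the entries.
-/

namespace Pool.Agent.H61.BD

open Finset Equiv

section count

variable {α : Type*} [Fintype α] [DecidableEq α] {κ : Type*} [Fintype κ] [DecidableEq κ]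

/-- The weight of a permutation. -/
noncomputable def wt (K : Type*) [Field K] (o : α) (σ : Perm α) : K :=
  if σ o = o then 1 - (Fintype.card α : K) else 1

/-- The number of permutations fixing `o` and mapping `i r` to `a r` for all `r`. -/
def cntA (o : α) (i a : κ → α) : ℕ :=
  (univ.filter fun σ : Perm α => σ o = o ∧ ∀ r, σ (i r) = a r).card

theorem card_fiber {o : α} {i a : κ → α} (ha : ∀ r, a r ≠ o) {b : α} (hb : ∀ r, a r ≠ b) :
    (univ.filter fun σ : Perm α => σ o = b ∧ ∀ r, σ (i r) = a r).card = cntA o i a := by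
  refine Finset.card_nbij' (fun σ => swap o b * σ) (fun σ => swap o b * σ) ?_ ?_ ?_ ?_
  · intro σ hσ
    simp only [coe_filter, mem_univ, true_and, Set.mem_ofPred_eq] at hσ ⊢
    refine ⟨by simp [Perm.mul_apply, hσ.1], fun r => ?_⟩
    rw [Perm.mul_apply, hσ.2 r, swap_apply_of_ne_of_ne (ha r) (hb r)]
  · intro σ hσ
    simp only [coe_filter, mem_univ, true_and, Set.mem_ofPred_eq] at hσ ⊢
    refine ⟨by simp [Perm.mul_apply, hσ.1], fun r => ?_⟩
    rw [Perm.mul_apply, hσ.2 r, swap_apply_of_ne_of_ne (ha r) (hb r)]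
  · intro σ _; simp [← mul_assoc]
  · intro σ _; simp [← mul_assoc]

theorem sum_wt (K : Type*) [Field K] {o : α} {i a : κ → α} (hi : ∀ r, i r ≠ o)
    (hai : Function.Injective a) (ha : ∀ r, a r ≠ o) :
    ∑ σ ∈ univ.filter (fun σ : Perm α => ∀ r, σ (i r) = a r), wt K o σ =
      -(Fintype.card κ : K) * cntA o i a := by
  rw [← Finset.sum_fiberwise (univ.filter (fun σ : Perm α => ∀ r, σ (i r) = a r))
    (fun σ => σ o)]
  have key : ∀ b, ∑ σ ∈ (univ.filter (fun σ : Perm α => ∀ r, σ (i r) = a r)).filter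
      (fun σ => σ o = b), wt K o σ =
      (cntA o i a : K) - (if b ∈ univ.image a then (cntA o i a : K) else 0) -
        (if b = o then (Fintype.card α : K) * cntA o i a else 0) := by
    intro b
    by_cases hb : b ∈ univ.image a
    · obtain ⟨r, -, hr⟩ := Finset.mem_image.1 hb
      have hbo : b ≠ o := hr ▸ ha r
      rw [if_pos hb, if_neg hbo, sub_self, sub_zero]
      refine Finset.sum_eq_zero fun σ hσ => ?_
      exfalso
      simp only [mem_filter, mem_univ, true_and] at hσ
      have h1 : σ o = σ (i r) := by rw [hσ.2, hσ.1 r, hr]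
      exact hi r (σ.injective h1).symm
    · rw [if_neg hb, sub_zero]
      have hb' : ∀ r, a r ≠ b := fun r hr => hb (Finset.mem_image.2 ⟨r, mem_univ _, hr⟩)
      have hc := card_fiber (i := i) ha hb'
      have h1 : ∀ σ ∈ (univ.filter (fun σ : Perm α => ∀ r, σ (i r) = a r)).filter
          (fun σ => σ o = b), wt K o σ = if b = o then 1 - (Fintype.card α : K) else 1 := by
        intro σ hσ
        simp only [mem_filter, mem_univ, true_and] at hσ
        rw [wt, hσ.2]
      rw [Finset.sum_congr rfl h1, Finset.sum_const, nsmul_eq_mul]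
      have h2 : ((univ.filter (fun σ : Perm α => ∀ r, σ (i r) = a r)).filter
          (fun σ => σ o = b)) = univ.filter fun σ : Perm α => σ o = b ∧ ∀ r, σ (i r) = a r := by
        ext σ; simp [and_comm]
      rw [h2, hc]
      split_ifs <;> ring
  rw [Finset.sum_congr rfl fun b _ => key b, Finset.sum_sub_distrib, Finset.sum_sub_distrib,
    Finset.sum_const, Finset.sum_ite_mem, Finset.univ_inter, Finset.sum_const,
    Finset.card_image_of_injective _ hai, Finset.sum_ite_eq' univ o, if_pos (mem_univ o)]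
  simp only [Finset.card_univ, nsmul_eq_mul]
  ring

theorem exists_perm {o : α} {i a : κ → α} (hi : Function.Injective i) (hio : ∀ r, i r ≠ o)
    (ha : Function.Injective a) (hao : ∀ r, a r ≠ o) :
    ∃ π : Perm α, π o = o ∧ ∀ r, π (i r) = a r := by
  let f : Option κ → α := fun x => x.elim o i
  let g : Option κ → α := fun x => x.elim o a
  have hf : Function.Injective f := by
    intro x y h
    cases x <;> cases y <;> simp [f] at h ⊢
    · exact hio _ h.symm
    · exact hio _ h
    · exact hi h
  have hg : Function.Injective g := by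
    intro x y h
    cases x <;> cases y <;> simp [g] at h ⊢
    · exact hao _ h.symm
    · exact hao _ h
    · exact ha h
  let e : {x // x ∈ Set.range f} ≃ {x // x ∈ Set.range g} :=
    (Equiv.ofInjective f hf).symm.trans (Equiv.ofInjective g hg)
  have key : ∀ x, e.extendSubtype (f x) = g x := by
    intro x
    rw [Equiv.extendSubtype_apply_of_mem e (f x) ⟨x, rfl⟩]
    have : (⟨f x, ⟨x, rfl⟩⟩ : {x // x ∈ Set.range f}) = Equiv.ofInjective f hf x := rfl
    rw [this]
    simp [e]
  exact ⟨e.extendSubtype, key none, fun r => key (some r)⟩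

theorem cntA_const {o : α} {i a i' a' : κ → α} (hi : Function.Injective i) (hio : ∀ r, i r ≠ o)
    (ha : Function.Injective a) (hao : ∀ r, a r ≠ o) (hi' : Function.Injective i')
    (hio' : ∀ r, i' r ≠ o) (ha' : Function.Injective a') (hao' : ∀ r, a' r ≠ o) :
    cntA o i a = cntA o i' a' := by
  obtain ⟨π, hπo, hπ⟩ := exists_perm ha hao ha' hao'
  obtain ⟨ρ, hρo, hρ⟩ := exists_perm hi' hio' hi hio
  have hπo' : π⁻¹ o = o := by rw [Perm.inv_eq_iff_eq]; exact hπo.symm
  have hρo' : ρ⁻¹ o = o := by rw [Perm.inv_eq_iff_eq]; exact hρo.symm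
  have hπ' : ∀ r, π⁻¹ (a' r) = a r := fun r => by rw [Perm.inv_eq_iff_eq]; exact (hπ r).symm
  have hρ' : ∀ r, ρ⁻¹ (i r) = i' r := fun r => by rw [Perm.inv_eq_iff_eq]; exact (hρ r).symm
  refine Finset.card_nbij' (fun σ => π * σ * ρ) (fun σ => π⁻¹ * σ * ρ⁻¹) ?_ ?_ ?_ ?_
  · intro σ hσ
    simp only [coe_filter, mem_univ, true_and, Set.mem_ofPred_eq] at hσ ⊢
    exact ⟨by simp [Perm.mul_apply, hσ.1, hρo, hπo], fun r => by
      simp [Perm.mul_apply, hρ, hσ.2, hπ]⟩
  · intro σ hσ
    simp only [coe_filter, mem_univ, true_and, Set.mem_ofPred_eq] at hσ ⊢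
    exact ⟨by simp only [Perm.mul_apply, hσ.1, hρo', hπo'], fun r => by
      simp only [Perm.mul_apply, hρ', hσ.2, hπ']⟩
  · intro σ _; simp [mul_assoc]
  · intro σ _; simp [mul_assoc]

theorem exists_const (K : Type*) [Field K] [CharZero K] (κ : Type*) [Fintype κ] [DecidableEq κ]
    [Nonempty κ] (o : α) :
    ∃ c : K, c ≠ 0 ∧ ∀ i : κ → α, Function.Injective i → (∀ r, i r ≠ o) →
      ∀ a : κ → α, Function.Injective a → (∀ r, a r ≠ o) →
      ∑ σ ∈ univ.filter (fun σ : Perm α => ∀ r, σ (i r) = a r), wt K o σ = c := by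
  by_cases h : ∃ i₀ : κ → α, Function.Injective i₀ ∧ ∀ r, i₀ r ≠ o
  · obtain ⟨i₀, h1, h2⟩ := h
    refine ⟨-(Fintype.card κ : K) * cntA o i₀ i₀, ?_, ?_⟩
    · have h3 : cntA o i₀ i₀ ≠ 0 := by
        rw [cntA, Finset.card_ne_zero]
        exact ⟨1, by simp⟩
      have h4 : Fintype.card κ ≠ 0 := Fintype.card_ne_zero
      exact mul_ne_zero (neg_ne_zero.2 (Nat.cast_ne_zero.2 h4)) (Nat.cast_ne_zero.2 h3)
    · intro i hi hio a ha hao
      rw [sum_wt K hio ha hao, cntA_const hi hio ha hao h1 h2 h1 h2]
  · refine ⟨1, one_ne_zero, ?_⟩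
    intro i hi hio
    exact absurd ⟨i, hi, hio⟩ h

open Classical in
/-- The weighted sum of a function of the values of `σ` on a tuple of distinct points. -/
theorem exists_const_sum (K : Type*) [Field K] [CharZero K] (κ : Type*) [Fintype κ]
    [DecidableEq κ] [Nonempty κ] (o : α) :
    ∃ c : K, c ≠ 0 ∧ ∀ i : κ → α, Function.Injective i → ∀ F : (κ → α) → K,
      (∀ a, (∃ r, a r = o) → F a = 0) → ((∃ r, i r = o) → F = 0) →
      ∑ σ : Perm α, wt K o σ * F (fun r => σ (i r)) =
        c * ∑ a : κ → α, if Function.Injective a then F a else 0 := by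
  obtain ⟨c, hc, h⟩ := exists_const K κ o
  refine ⟨c, hc, fun i hi F hF hF0 => ?_⟩
  by_cases hio : ∃ r, i r = o
  · rw [hF0 hio]; simp
  push Not at hio
  rw [← Finset.sum_fiberwise univ (fun σ : Perm α => (fun r => σ (i r))), Finset.mul_sum]
  refine Finset.sum_congr rfl fun a _ => ?_
  have h1 : ∑ σ ∈ univ.filter (fun σ : Perm α => (fun r => σ (i r)) = a),
      wt K o σ * F (fun r => σ (i r)) =
      (∑ σ ∈ univ.filter (fun σ : Perm α => ∀ r, σ (i r) = a r), wt K o σ) * F a := by
    rw [Finset.sum_mul]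
    refine Finset.sum_congr ?_ ?_
    · ext σ
      simp [funext_iff]
    · intro σ hσ
      simp only [mem_filter, mem_univ, true_and] at hσ
      rw [show (fun r => σ (i r)) = a from funext hσ]
  rw [h1]
  by_cases ha : ∃ r, a r = o
  · rw [hF a ha]; simp
  push Not at ha
  by_cases hai : Function.Injective a
  · rw [h i hi hio a hai ha, if_pos hai]
  · rw [if_neg hai, mul_zero]
    have : univ.filter (fun σ : Perm α => ∀ r, σ (i r) = a r) = ∅ := by
      apply Finset.filter_eq_empty_iff.2
      intro σ _ hσ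
      apply hai
      intro r r' hrr
      rw [← hσ, ← hσ] at hrr
      exact hi (σ.injective hrr)
    rw [this]; simp

end count

/-! ### Sums over tuples of distinct indices -/

section tuples

variable {α : Type*} [Fintype α] [DecidableEq α] {K : Type*} [Field K]

/-- Pairs as functions. -/
def pairEquiv (α : Type*) : α × α ≃ (Fin 2 → α) where
  toFun p := ![p.1, p.2]
  invFun f := (f 0, f 1)
  left_inv p := by simp
  right_inv f := by ext i; fin_cases i <;> simp

/-- Triples as functions. -/
def tripleEquiv (α : Type*) : α × α × α ≃ (Fin 3 → α) where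
  toFun p := ![p.1, p.2.1, p.2.2]
  invFun f := (f 0, f 1, f 2)
  left_inv p := by simp
  right_inv f := by ext i; fin_cases i <;> simp

theorem injective_pair {a b : α} : Function.Injective ![a, b] ↔ a ≠ b := by
  constructor
  · intro h hab
    have := @h 0 1 (by simp [hab])
    exact absurd this (by decide)
  · intro h x y hxy
    fin_cases x <;> fin_cases y <;> simp at hxy ⊢
    · exact h hxy
    · exact h hxy.symm

theorem injective_triple {a b c : α} :
    Function.Injective ![a, b, c] ↔ a ≠ b ∧ a ≠ c ∧ b ≠ c := by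
  constructor
  · intro h
    refine ⟨fun hab => ?_, fun hab => ?_, fun hab => ?_⟩
    · have := @h 0 1 (by simp [hab])
      exact absurd this (by decide)
    · have := @h 0 2 (by simp [hab])
      exact absurd this (by decide)
    · have := @h 1 2 (by simp [hab])
      exact absurd this (by decide)
  · rintro ⟨h1, h2, h3⟩ x y hxy
    fin_cases x <;> fin_cases y <;> simp at hxy ⊢
    · exact h1 hxy
    · exact h2 hxy
    · exact h1 hxy.symm
    · exact h3 hxy
    · exact h2 hxy.symm
    · exact h3 hxy.symm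

open Classical in
theorem sum_one (x : α → K) :
    ∑ i : Fin 1 → α, (if Function.Injective i then x (i 0) else 0) = ∑ a, x a := by
  refine Fintype.sum_equiv (Equiv.funUnique (Fin 1) α) _ _ fun i => ?_
  rw [if_pos (Function.injective_of_subsingleton i)]
  rfl

open Classical in
theorem sum_pair (x y : α → K) :
    ∑ i : Fin 2 → α, (if Function.Injective i then x (i 0) * y (i 1) else 0) =
      (∑ a, x a) * (∑ a, y a) - ∑ a, x a * y a := by
  rw [← Fintype.sum_equiv (pairEquiv α) (fun p => if p.1 ≠ p.2 then x p.1 * y p.2 else 0) _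
    (fun p => by
      have : (pairEquiv α) p = ![p.1, p.2] := rfl
      rw [this]
      simp only [injective_pair]
      simp)]
  rw [Fintype.sum_prod_type]
  have h : ∀ a b, (if a ≠ b then x a * y b else 0) =
      x a * y b - (if a = b then x a * y b else 0) := by
    intro a b; split_ifs <;> simp_all
  simp only [h, Finset.sum_sub_distrib]
  congr 1
  · rw [Finset.sum_mul_sum]
  · refine Finset.sum_congr rfl fun a _ => ?_
    rw [Finset.sum_ite_eq univ a, if_pos (mem_univ a)]

open Classical in
theorem sum_triple (x y z : α → K) :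
    ∑ i : Fin 3 → α, (if Function.Injective i then x (i 0) * y (i 1) * z (i 2) else 0) =
      (∑ a, x a) * (∑ a, y a) * (∑ a, z a) - (∑ a, x a * y a) * (∑ a, z a) -
      (∑ a, x a * z a) * (∑ a, y a) - (∑ a, y a * z a) * (∑ a, x a) +
      2 * ∑ a, x a * y a * z a := by
  rw [← Fintype.sum_equiv (tripleEquiv α) (fun p => if p.1 ≠ p.2.1 ∧ p.1 ≠ p.2.2 ∧ p.2.1 ≠ p.2.2
    then x p.1 * y p.2.1 * z p.2.2 else 0) _
    (fun p => by
      have : (tripleEquiv α) p = ![p.1, p.2.1, p.2.2] := rfl
      rw [this]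
      simp only [injective_triple]
      simp)]
  rw [Fintype.sum_prod_type]
  simp only [Fintype.sum_prod_type]
  have h : ∀ a b c, (if a ≠ b ∧ a ≠ c ∧ b ≠ c then x a * y b * z c else 0) =
      x a * y b * z c - (if a = b then x a * y b * z c else 0) -
      (if a = c then x a * y b * z c else 0) - (if b = c then x a * y b * z c else 0) +
      2 * (if a = b then (if a = c then x a * y b * z c else 0) else 0) := by
    intro a b c
    by_cases h1 : a = b
    · subst h1
      by_cases h2 : a = c
      · subst h2; simp; ring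
      · simp [h2]
    · by_cases h2 : a = c
      · subst h2
        have h3 : b ≠ a := fun h => h1 h.symm
        simp [h1, h3]
      · by_cases h3 : b = c
        · simp [h1, h2, h3]
        · simp [h1, h2, h3]
  simp only [h, Finset.sum_sub_distrib, Finset.sum_add_distrib]
  have e1 : ∑ a, ∑ b, ∑ c, x a * y b * z c = (∑ a, x a) * (∑ a, y a) * (∑ a, z a) := by
    rw [Finset.sum_mul_sum, Finset.sum_mul]
    refine Finset.sum_congr rfl fun a _ => ?_
    rw [Finset.sum_mul]
    refine Finset.sum_congr rfl fun b _ => ?_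
    rw [Finset.mul_sum]
  have e2 : ∑ a, ∑ b, ∑ c, (if a = b then x a * y b * z c else 0) =
      (∑ a, x a * y a) * (∑ a, z a) := by
    rw [Finset.sum_mul]
    refine Finset.sum_congr rfl fun a _ => ?_
    rw [Finset.sum_comm, Finset.mul_sum]
    refine Finset.sum_congr rfl fun c _ => ?_
    rw [Finset.sum_ite_eq univ a, if_pos (mem_univ a)]
  have e3 : ∑ a, ∑ b, ∑ c, (if a = c then x a * y b * z c else 0) =
      (∑ a, x a * z a) * (∑ a, y a) := by
    rw [Finset.sum_mul]
    refine Finset.sum_congr rfl fun a _ => ?_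
    rw [Finset.mul_sum]
    refine Finset.sum_congr rfl fun b _ => ?_
    rw [Finset.sum_ite_eq univ a, if_pos (mem_univ a)]
    ring
  have e4 : ∑ a, ∑ b, ∑ c, (if b = c then x a * y b * z c else 0) =
      (∑ a, y a * z a) * (∑ a, x a) := by
    rw [mul_comm, Finset.sum_mul]
    refine Finset.sum_congr rfl fun a _ => ?_
    rw [Finset.mul_sum]
    refine Finset.sum_congr rfl fun b _ => ?_
    rw [Finset.sum_ite_eq univ b, if_pos (mem_univ b)]
    ring
  have e5 : ∑ a, ∑ b, ∑ c, 2 * (if a = b then (if a = c then x a * y b * z c else 0) else 0) =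
      2 * ∑ a, x a * y a * z a := by
    rw [Finset.mul_sum]
    refine Finset.sum_congr rfl fun a _ => ?_
    simp only [← Finset.mul_sum]
    congr 1
    have : ∀ b, (∑ c, (if a = b then (if a = c then x a * y b * z c else 0) else 0)) =
        if a = b then x a * y b * z a else 0 := by
      intro b
      split_ifs with hab
      · rw [Finset.sum_ite_eq univ a, if_pos (mem_univ a)]
      · simp
    simp only [this]
    rw [Finset.sum_ite_eq univ a, if_pos (mem_univ a)]
  rw [e1, e2, e3, e4, e5]

end tuples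

/-! ### Coefficients of products -/

section coeffs

open Polynomial

variable {α : Type*} [DecidableEq α] {K : Type*} [Field K]

theorem coeff_prod (v : α → K) (s : Finset α) :
    (∏ i ∈ s, (1 + X * C (v i))).coeff 0 = 1 ∧
    (∏ i ∈ s, (1 + X * C (v i))).coeff 1 = ∑ i ∈ s, v i ∧
    2 * (∏ i ∈ s, (1 + X * C (v i))).coeff 2 = (∑ i ∈ s, v i) ^ 2 - ∑ i ∈ s, v i ^ 2 ∧
    6 * (∏ i ∈ s, (1 + X * C (v i))).coeff 3 = (∑ i ∈ s, v i) ^ 3 -
      3 * (∑ i ∈ s, v i) * (∑ i ∈ s, v i ^ 2) + 2 * ∑ i ∈ s, v i ^ 3 := by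
  induction s using Finset.induction_on with
  | empty =>
    simp [Polynomial.coeff_one]
  | insert a s ha ih =>
    obtain ⟨h0, h1, h2, h3⟩ := ih
    rw [Finset.prod_insert ha]
    set P := ∏ i ∈ s, (1 + X * C (v i)) with hP
    have e : (1 + X * C (v a)) * P = P + X * (C (v a) * P) := by ring
    rw [e]
    have c0 : (P + X * (C (v a) * P)).coeff 0 = P.coeff 0 := by simp
    have c1 : ∀ n, (P + X * (C (v a) * P)).coeff (n + 1) = P.coeff (n + 1) + v a * P.coeff n := by
      intro n
      rw [Polynomial.coeff_add, Polynomial.coeff_X_mul, Polynomial.coeff_C_mul]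
    have c1' : (P + X * (C (v a) * P)).coeff 1 = P.coeff 1 + v a * P.coeff 0 := c1 0
    have c2' : (P + X * (C (v a) * P)).coeff 2 = P.coeff 2 + v a * P.coeff 1 := c1 1
    have c3' : (P + X * (C (v a) * P)).coeff 3 = P.coeff 3 + v a * P.coeff 2 := c1 2
    rw [c0, c1', c2', c3']
    simp only [Finset.sum_insert ha]
    refine ⟨h0, ?_, ?_, ?_⟩
    · rw [h0, h1]; ring
    · rw [mul_add, h2, h1]; ring
    · rw [mul_add, h3]
      linear_combination 3 * v a * h2

end coeffs

/-! ### Power sums -/

section main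

variable {α : Type*} [Fintype α] [DecidableEq α] {K : Type*} [Field K] [CharZero K]

theorem sum_coeff_eq_zero {o : α} {u : α → α → K}
    (h : ∀ t : K, ∑ σ : Perm α, wt K o σ * ∏ i, (1 + t * u (σ i) i) = 0) (n : ℕ) :
    ∑ σ : Perm α, wt K o σ *
      (∏ i, (1 + Polynomial.X * Polynomial.C (u (σ i) i))).coeff n = 0 := by
  have h1 : ∑ σ : Perm α, Polynomial.C (wt K o σ) *
      ∏ i, (1 + Polynomial.X * Polynomial.C (u (σ i) i)) = 0 := by
    apply Polynomial.funext
    intro t
    rw [Polynomial.eval_finsetSum, Polynomial.eval_zero, ← h t]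
    refine Finset.sum_congr rfl fun σ _ => ?_
    rw [Polynomial.eval_mul, Polynomial.eval_C, Polynomial.eval_prod]
    congr 1
    refine Finset.prod_congr rfl fun i _ => ?_
    simp only [Polynomial.eval_add, Polynomial.eval_one, Polynomial.eval_mul, Polynomial.eval_X,
      Polynomial.eval_C]
  have h2 := congrArg (fun P => Polynomial.coeff P n) h1
  simpa [Polynomial.finsetSum_coeff] using h2

/-- The first power sum. -/
theorem power_sum_one {o : α} {u : α → α → K} (hr : ∀ j, u o j = 0) (hcl : ∀ i, u i o = 0)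
    (h : ∀ t : K, ∑ σ : Perm α, wt K o σ * ∏ i, (1 + t * u (σ i) i) = 0) :
    ∑ i, ∑ a, u a i = 0 := by
  classical
  obtain ⟨c, hc, hsum⟩ := exists_const_sum K (Fin 1) o
  have h1 := sum_coeff_eq_zero h 1
  simp only [(coeff_prod _ _).2.1] at h1
  have h2 : ∀ i, ∑ σ : Perm α, wt K o σ * u (σ i) i = c * ∑ a, u a i := by
    intro i
    rw [← sum_one (fun a => u a i)]
    refine hsum (fun _ => i) (Function.injective_of_subsingleton _) (fun a => u (a 0) i) ?_ ?_
    · rintro a ⟨r, hr'⟩
      have : r = 0 := Subsingleton.elim _ _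
      subst this
      simp [hr', hr]
    · rintro ⟨r, hr'⟩
      funext a
      have hr'' : i = o := hr'
      simp [hr'', hcl]
  have h3 : c * ∑ i, ∑ a, u a i = 0 := by
    rw [← h1, Finset.mul_sum]
    simp only [← h2, Finset.mul_sum]
    rw [Finset.sum_comm]
  exact (mul_eq_zero.1 h3).resolve_left hc

/-- The second power sum. -/
theorem power_sum_two {o : α} {u : α → α → K} (hr : ∀ j, u o j = 0) (hcl : ∀ i, u i o = 0)
    (h : ∀ t : K, ∑ σ : Perm α, wt K o σ * ∏ i, (1 + t * u (σ i) i) = 0)
    (hrow : ∀ a, ∑ i, u a i = 0) (hcol : ∀ i, ∑ a, u a i = 0) :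
    ∑ a, ∑ i, u a i ^ 2 = 0 := by
  classical
  obtain ⟨c, hc, hsum⟩ := exists_const_sum K (Fin 2) o
  have h1 := sum_coeff_eq_zero h 2
  have h1' : ∑ σ : Perm α, wt K o σ * ∑ i : Fin 2 → α,
      (if Function.Injective i then u (σ (i 0)) (i 0) * u (σ (i 1)) (i 1) else 0) = 0 := by
    have : (2 : K) * ∑ σ : Perm α, wt K o σ *
        (∏ i, (1 + Polynomial.X * Polynomial.C (u (σ i) i))).coeff 2 = 0 := by rw [h1, mul_zero]
    rw [Finset.mul_sum] at this
    refine Eq.trans ?_ this
    refine Finset.sum_congr rfl fun σ _ => ?_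
    rw [mul_left_comm, (coeff_prod (fun i => u (σ i) i) univ).2.2.1,
      sum_pair (fun i => u (σ i) i) (fun i => u (σ i) i)]
    congr 1
    have : ∀ i, u (σ i) i * u (σ i) i = u (σ i) i ^ 2 := fun i => by ring
    simp only [this]
    ring
  have h2 : ∀ i : Fin 2 → α, Function.Injective i →
      ∑ σ : Perm α, wt K o σ * (u (σ (i 0)) (i 0) * u (σ (i 1)) (i 1)) =
      c * -∑ a, u a (i 0) * u a (i 1) := by
    intro i hi
    have := sum_pair (fun a => u a (i 0)) (fun a => u a (i 1))
    simp only [hcol, zero_mul, zero_sub] at this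
    rw [← this]
    refine hsum i hi (fun a => u (a 0) (i 0) * u (a 1) (i 1)) ?_ ?_
    · rintro a ⟨r, hr'⟩
      fin_cases r
      · simp only [Fin.zero_eta, Fin.mk_one] at hr'; simp [hr', hr]
      · simp only [Fin.zero_eta, Fin.mk_one] at hr'; simp [hr', hr]
    · rintro ⟨r, hr'⟩
      funext a
      fin_cases r
      · simp only [Fin.zero_eta, Fin.mk_one] at hr'; simp [hr', hcl]
      · simp only [Fin.zero_eta, Fin.mk_one] at hr'; simp [hr', hcl]
  have h3 : c * ∑ a, ∑ i, u a i ^ 2 = 0 := by
    have e1 : ∑ σ : Perm α, wt K o σ * ∑ i : Fin 2 → α,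
      (if Function.Injective i then u (σ (i 0)) (i 0) * u (σ (i 1)) (i 1) else 0) =
      ∑ i : Fin 2 → α, (if Function.Injective i then
        c * -∑ a, u a (i 0) * u a (i 1) else 0) := by
      simp only [Finset.mul_sum]
      rw [Finset.sum_comm]
      refine Finset.sum_congr rfl fun i _ => ?_
      split_ifs with hi
      · rw [h2 i hi]
      · simp
    rw [h1'] at e1
    have e2 : ∑ i : Fin 2 → α, (if Function.Injective i then
        c * -∑ a, u a (i 0) * u a (i 1) else 0) =
        -c * ∑ a, ∑ i : Fin 2 → α,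
          (if Function.Injective i then u a (i 0) * u a (i 1) else 0) := by
      rw [Finset.sum_comm, Finset.mul_sum]
      refine Finset.sum_congr rfl fun i _ => ?_
      split_ifs with hi
      · ring
      · simp
    have e3 : ∀ a, ∑ i : Fin 2 → α,
          (if Function.Injective i then u a (i 0) * u a (i 1) else 0) = -∑ i, u a i ^ 2 := by
      intro a
      rw [sum_pair (fun i => u a i) (fun i => u a i), hrow]
      simp [sq]
    rw [e2] at e1
    simp only [e3, Finset.sum_neg_distrib] at e1
    linear_combination -e1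
  exact (mul_eq_zero.1 h3).resolve_left hc

/-- The third power sum. -/
theorem power_sum_three {o : α} {u : α → α → K} (hr : ∀ j, u o j = 0) (hcl : ∀ i, u i o = 0)
    (h : ∀ t : K, ∑ σ : Perm α, wt K o σ * ∏ i, (1 + t * u (σ i) i) = 0)
    (hrow : ∀ a, ∑ i, u a i = 0) (hcol : ∀ i, ∑ a, u a i = 0) :
    ∑ a, ∑ i, u a i ^ 3 = 0 := by
  classical
  obtain ⟨c, hc, hsum⟩ := exists_const_sum K (Fin 3) o
  have h1 := sum_coeff_eq_zero h 3
  have h1' : ∑ σ : Perm α, wt K o σ * ∑ i : Fin 3 → α,
      (if Function.Injective i then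
        u (σ (i 0)) (i 0) * u (σ (i 1)) (i 1) * u (σ (i 2)) (i 2) else 0) = 0 := by
    have : (6 : K) * ∑ σ : Perm α, wt K o σ *
        (∏ i, (1 + Polynomial.X * Polynomial.C (u (σ i) i))).coeff 3 = 0 := by rw [h1, mul_zero]
    rw [Finset.mul_sum] at this
    refine Eq.trans ?_ this
    refine Finset.sum_congr rfl fun σ _ => ?_
    rw [mul_left_comm, (coeff_prod (fun i => u (σ i) i) univ).2.2.2,
      sum_triple (fun i => u (σ i) i) (fun i => u (σ i) i) (fun i => u (σ i) i)]
    congr 1
    have e2 : ∀ i, u (σ i) i * u (σ i) i = u (σ i) i ^ 2 := fun i => by ring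
    have e3 : ∀ i, u (σ i) i ^ 2 * u (σ i) i = u (σ i) i ^ 3 := fun i => by ring
    simp only [e2, e3]
    ring
  have h2 : ∀ i : Fin 3 → α, Function.Injective i →
      ∑ σ : Perm α, wt K o σ *
        (u (σ (i 0)) (i 0) * u (σ (i 1)) (i 1) * u (σ (i 2)) (i 2)) =
      c * (2 * ∑ a, u a (i 0) * u a (i 1) * u a (i 2)) := by
    intro i hi
    have := sum_triple (fun a => u a (i 0)) (fun a => u a (i 1)) (fun a => u a (i 2))
    simp only [hcol, zero_mul, mul_zero, sub_zero, zero_add] at this
    rw [← this]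
    refine hsum i hi (fun a => u (a 0) (i 0) * u (a 1) (i 1) * u (a 2) (i 2)) ?_ ?_
    · rintro a ⟨r, hr'⟩
      fin_cases r
      · simp only [Fin.zero_eta, Fin.mk_one, Fin.reduceFinMk] at hr'; simp [hr', hr]
      · simp only [Fin.zero_eta, Fin.mk_one, Fin.reduceFinMk] at hr'; simp [hr', hr]
      · simp only [Fin.zero_eta, Fin.mk_one, Fin.reduceFinMk] at hr'; simp [hr', hr]
    · rintro ⟨r, hr'⟩
      funext a
      fin_cases r
      · simp only [Fin.zero_eta, Fin.mk_one, Fin.reduceFinMk] at hr'; simp [hr', hcl]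
      · simp only [Fin.zero_eta, Fin.mk_one, Fin.reduceFinMk] at hr'; simp [hr', hcl]
      · simp only [Fin.zero_eta, Fin.mk_one, Fin.reduceFinMk] at hr'; simp [hr', hcl]
  have h3 : c * ∑ a, ∑ i, u a i ^ 3 = 0 := by
    have e1 : ∑ σ : Perm α, wt K o σ * ∑ i : Fin 3 → α,
      (if Function.Injective i then
        u (σ (i 0)) (i 0) * u (σ (i 1)) (i 1) * u (σ (i 2)) (i 2) else 0) =
      ∑ i : Fin 3 → α, (if Function.Injective i then
        c * (2 * ∑ a, u a (i 0) * u a (i 1) * u a (i 2)) else 0) := by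
      simp only [Finset.mul_sum]
      rw [Finset.sum_comm]
      refine Finset.sum_congr rfl fun i _ => ?_
      split_ifs with hi
      · rw [h2 i hi, Finset.mul_sum, Finset.mul_sum]
      · simp
    rw [h1'] at e1
    have e2 : ∑ i : Fin 3 → α, (if Function.Injective i then
        c * (2 * ∑ a, u a (i 0) * u a (i 1) * u a (i 2)) else 0) =
        2 * c * ∑ a, ∑ i : Fin 3 → α,
          (if Function.Injective i then u a (i 0) * u a (i 1) * u a (i 2) else 0) := by
      rw [Finset.sum_comm, Finset.mul_sum]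
      refine Finset.sum_congr rfl fun i _ => ?_
      split_ifs with hi
      · ring
      · simp
    have e3 : ∀ a, ∑ i : Fin 3 → α,
          (if Function.Injective i then u a (i 0) * u a (i 1) * u a (i 2) else 0) =
          2 * ∑ i, u a i ^ 3 := by
      intro a
      rw [sum_triple (fun i => u a i) (fun i => u a i) (fun i => u a i), hrow]
      have : ∀ i, u a i * u a i * u a i = u a i ^ 3 := fun i => by ring
      simp only [this]
      ring
    rw [e2] at e1
    simp only [e3, ← Finset.mul_sum] at e1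
    have h4 : (4 : K) * (c * ∑ a, ∑ i, u a i ^ 3) = 0 := by linear_combination -e1
    exact (mul_eq_zero.1 h4).resolve_left (by norm_num)
  exact (mul_eq_zero.1 h3).resolve_left hc

end main

end Pool.Agent.H61.BD
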