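import Pool.Agent.H61.BD.Kneser
import Pool.Agent.H61.BD.Border
import Pool.Agent.H61.BD.Perm

/-! The border determinantal complexity of the permanent: assembly. -/

namespace Pool.Agent.H61.BD

open MvPolynomial Finset Module
open Pool.Agent.H53.AC (SpecializesTo)

universe u v

/-- The permanent of the generic `n × n` matrix. -/
noncomputable def perPoly (n : ℕ) (k : Type u) [Field k] : MvPolynomial (Fin n × Fin n) k :=
  Matrix.permanent (Matrix.of fun i j => X (i, j))

/-- The exact complexity is at least the approximative one. -/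
theorem DetLE.border {k : Type u} [Field k] {σ : Type v} {f : MvPolynomial σ k} {s : ℕ}
    (h : DetLE f s) : BorderDetLE f s := by
  obtain ⟨A, hA, hdet⟩ := h
  refine ⟨map (algebraMap k (RatFunc k)) f, fun m => ?_,
    (map (algebraMap k (RatFunc k))).mapMatrix A, fun i j => ?_, ?_⟩
  · refine ⟨Polynomial.C (coeff m f), 1, by simp, ?_, by simp⟩
    rw [coeff_map, map_one, div_one]
    rfl
  · exact (Finset.sup_mono (support_map_subset _ _)).trans (hA i j)
  · rw [← RingHom.map_det, hdet]

section base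

variable {k : Type u} [Field k] {m : ℕ}

/-- The base point: all entries are `1` except for the corner. -/
def base (k : Type u) [Field k] (m : ℕ) (p : Fin (m + 2) × Fin (m + 2)) : k :=
  if p.1 = 0 ∧ p.2 = 0 then 1 - ((m + 2 : ℕ) : k) else 1

theorem eval_base_add {u : Fin (m + 2) × Fin (m + 2) → k} (hr : ∀ j, u (0, j) = 0)
    (hc : ∀ i, u (i, 0) = 0) :
    eval (base k m + u) (perPoly (m + 2) k) =
      ∑ σ : Equiv.Perm (Fin (m + 2)), wt k 0 σ * ∏ i, (1 + u (σ i, i)) := by
  rw [perPoly, Matrix.permanent, map_sum]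
  refine Finset.sum_congr rfl fun σ _ => ?_
  rw [map_prod]
  simp only [Matrix.of_apply, eval_X, Pi.add_apply]
  rw [wt, Fintype.card_fin]
  rw [← Finset.mul_prod_erase univ _ (mem_univ (0 : Fin (m + 2))),
    ← Finset.mul_prod_erase univ (fun i => 1 + u (σ i, i)) (mem_univ (0 : Fin (m + 2)))]
  rw [hc, add_zero, add_zero, one_mul]
  congr 1
  · rw [base]
    by_cases h : σ 0 = 0
    · simp [h]
    · simp [h]
  · refine Finset.prod_congr rfl fun i hi => ?_
    have hi0 : i ≠ 0 := Finset.ne_of_mem_erase hi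
    rw [base]
    simp [hi0]

theorem eval_base : eval (base k m) (perPoly (m + 2) k) = 0 := by
  have h := eval_base_add (k := k) (m := m) (u := 0) (fun _ => rfl) (fun _ => rfl)
  rw [add_zero] at h
  rw [h]
  have h2 := sum_wt (κ := Fin 0) k (o := (0 : Fin (m + 2))) (i := Fin.elim0) (a := Fin.elim0)
    (fun r => r.elim0) (fun r => r.elim0) (fun r => r.elim0)
  simpa using h2

theorem pderiv_prod_eq_zero {σ : Type*} {ι : Type*} (c : σ) (s : Finset ι)
    (g : ι → MvPolynomial σ k) (hg : ∀ i ∈ s, pderiv c (g i) = 0) :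
    pderiv c (∏ i ∈ s, g i) = 0 := by
  classical
  induction s using Finset.induction_on with
  | empty => simp
  | insert a s ha ih =>
    rw [Finset.prod_insert ha, Derivation.leibniz,
      ih fun i hi => hg i (Finset.mem_insert_of_mem hi), hg a (Finset.mem_insert_self _ _)]
    simp

theorem eval_pderiv_base [CharZero k] :
    eval (base k m) (pderiv ((0 : Fin (m + 2)), (0 : Fin (m + 2))) (perPoly (m + 2) k)) ≠ 0 := by
  have key : eval (base k m) (pderiv ((0 : Fin (m + 2)), (0 : Fin (m + 2)))
      (perPoly (m + 2) k)) =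
      ((univ.filter fun σ : Equiv.Perm (Fin (m + 2)) => σ 0 = 0).card : k) := by
    rw [perPoly, Matrix.permanent, map_sum, map_sum, Finset.card_filter, Nat.cast_sum]
    refine Finset.sum_congr rfl fun σ _ => ?_
    simp only [Matrix.of_apply]
    rw [← Finset.mul_prod_erase univ _ (mem_univ (0 : Fin (m + 2))), Derivation.leibniz,
      pderiv_prod_eq_zero, smul_zero, zero_add, smul_eq_mul, map_mul, map_prod]
    · have h1 : ∏ x ∈ univ.erase (0 : Fin (m + 2)), eval (base k m) (X (σ x, x)) = 1 := by
        refine Finset.prod_eq_one fun i hi => ?_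
        have hi0 : i ≠ 0 := Finset.ne_of_mem_erase hi
        rw [eval_X, base]
        simp [hi0]
      rw [h1, one_mul]
      by_cases h : σ 0 = 0
      · rw [h, pderiv_X_self]
        simp
      · rw [pderiv_X_of_ne]
        · simp [h]
        · intro h2
          exact h (Prod.ext_iff.1 h2).1
    · intro i hi
      have hi0 : i ≠ 0 := Finset.ne_of_mem_erase hi
      apply pderiv_X_of_ne
      intro h2
      exact hi0 (Prod.ext_iff.1 h2).2
  rw [key, Nat.cast_ne_zero, Finset.card_ne_zero]
  exact ⟨1, by simp⟩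

/-- The linear conditions. -/
def Phi (k : Type u) [Field k] (m : ℕ) : (Fin (m + 2) × Fin (m + 2) → k) →ₗ[k]
    (Fin (m + 2) ⊕ Fin (m + 1) ⊕ Fin m ⊕ Fin m → k) where
  toFun u := Sum.elim (fun j => u (0, j)) (Sum.elim (fun i => u (i.succ, 0))
    (Sum.elim (fun a => ∑ j, u (a.succ.succ, j)) (fun j => ∑ a, u (a, j.succ.succ))))
  map_add' := by
    intro u w
    funext x
    rcases x with x | x | x | x <;> simp [Finset.sum_add_distrib]
  map_smul' := by
    intro c u
    funext x
    rcases x with x | x | x | x <;> simp [Finset.mul_sum]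

theorem bound_aux [CharZero k] {s : ℕ} (h : BorderDetLE (perPoly (m + 2) k) s) :
    2 * m ^ 2 + 2 ≤ 3 * s + 2 * m := by
  obtain ⟨U, hU, hU0⟩ := exists_subspace h (base k m) (0, 0) eval_base eval_pderiv_base
  rw [Fintype.card_prod, Fintype.card_fin] at hU
  set V : Submodule k (Fin (m + 2) × Fin (m + 2) → k) := U ⊓ LinearMap.ker (Phi k m) with hV
  have hdim : (m + 2) * (m + 2) ≤ finrank k V + (4 * m + 3) + s := by
    have h1 := LinearMap.finrank_range_add_finrank_ker (Phi k m)
    have h2 := Submodule.finrank_le (LinearMap.range (Phi k m))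
    have h3 := Submodule.finrank_sup_add_finrank_inf_eq U (LinearMap.ker (Phi k m))
    have h4 := Submodule.finrank_le (U ⊔ LinearMap.ker (Phi k m))
    simp only [Module.finrank_fintype_fun_eq_card, Fintype.card_sum, Fintype.card_fin,
      Fintype.card_prod] at h1 h2 h4
    rw [← hV] at h3
    omega
  have hVz : ∀ u ∈ V, (∀ j, u (0, j) = 0) ∧ (∀ i, u (i, 0) = 0) := by
    intro u hu
    have hk : Phi k m u = 0 := LinearMap.mem_ker.1 hu.2
    have h1 : ∀ j, u (0, j) = 0 := fun j => congrFun hk (Sum.inl j)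
    refine ⟨h1, fun i => ?_⟩
    refine Fin.cases (h1 0) (fun i => ?_) i
    exact congrFun hk (Sum.inr (Sum.inl i))
  have hVper : ∀ u ∈ V, ∀ t : k, ∑ σ : Equiv.Perm (Fin (m + 2)), wt k 0 σ *
      ∏ i, (1 + t * (fun a i => u (a, i)) (σ i) i) = 0 := by
    intro u hu t
    have h1 : t • u ∈ V := V.smul_mem t hu
    have h2 := hVz _ h1
    have h3 := hU0 _ h1.1
    rw [eval_base_add h2.1 h2.2] at h3
    exact h3
  have hVsum : ∀ u ∈ V, (∀ a, ∑ i, u (a, i) = 0) ∧ (∀ i, ∑ a, u (a, i) = 0) := by
    intro u hu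
    have hk : Phi k m u = 0 := LinearMap.mem_ker.1 hu.2
    have hz := hVz u hu
    have h1 := power_sum_one (u := fun a i => u (a, i)) hz.1 hz.2 (hVper u hu)
    have h1' : ∑ a, ∑ i, u (a, i) = 0 := by rw [Finset.sum_comm]; exact h1
    have hR : ∀ a : Fin m, ∑ j, u (a.succ.succ, j) = 0 := fun a =>
      congrFun hk (Sum.inr (Sum.inr (Sum.inl a)))
    have hC : ∀ a : Fin m, ∑ j, u (j, a.succ.succ) = 0 := fun a =>
      congrFun hk (Sum.inr (Sum.inr (Sum.inr a)))
    constructor
    · rw [Fin.sum_univ_succ (fun a : Fin (m + 2) => ∑ i, u (a, i)),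
        Fin.sum_univ_succ (fun a : Fin (m + 1) => ∑ i, u (a.succ, i))] at h1'
      simp only [hR, Finset.sum_const_zero, add_zero, hz.1, zero_add] at h1'
      intro a
      refine Fin.cases ?_ (fun a => ?_) a
      · simp [hz.1]
      · refine Fin.cases h1' (fun a => hR a) a
    · rw [Fin.sum_univ_succ (fun i : Fin (m + 2) => ∑ a, u (a, i)),
        Fin.sum_univ_succ (fun i : Fin (m + 1) => ∑ a, u (a, i.succ))] at h1
      simp only [hC, Finset.sum_const_zero, add_zero, hz.2, zero_add] at h1
      intro a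
      refine Fin.cases ?_ (fun a => ?_) a
      · simp [hz.2]
      · refine Fin.cases h1 (fun a => hC a) a
  have hfin := three_mul_aux ((m + 1) * (m + 1))
    ((univ.erase (0 : Fin (m + 2))) ×ˢ (univ.erase (0 : Fin (m + 2)))) (by simp) V (by
      rintro u hu ⟨a, i⟩ hai
      have hz := hVz u hu
      by_cases ha : a = 0
      · rw [ha]; exact hz.1 i
      · by_cases hi : i = 0
        · rw [hi]; exact hz.2 a
        · exfalso; apply hai; simp [ha, hi]) (by
      intro u hu
      rw [Fintype.sum_prod_type]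
      have hz := hVz u hu
      have hs := hVsum u hu
      exact power_sum_two (u := fun a i => u (a, i)) hz.1 hz.2 (hVper u hu) hs.1 hs.2) (by
      intro u hu
      rw [Fintype.sum_prod_type]
      have hz := hVz u hu
      have hs := hVsum u hu
      exact power_sum_three (u := fun a i => u (a, i)) hz.1 hz.2 (hVper u hu) hs.1 hs.2)
  nlinarith

/-- The lower bound for the approximative determinantal complexity of the permanent. -/
theorem bound [CharZero k] {n s : ℕ} (hn : 2 ≤ n) (h : BorderDetLE (perPoly n k) s) :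
    (2 : ℝ) / 3 * ((n : ℝ) - 1) ^ 2 - 2 * ((n : ℝ) - 1) + 2 ≤ s := by
  obtain ⟨m, rfl⟩ := Nat.exists_eq_add_of_le' hn
  have h1 := bound_aux h
  have h2 : (2 : ℝ) * m ^ 2 + 2 ≤ 3 * s + 2 * m := by exact_mod_cast h1
  push_cast
  nlinarith

end base

end Pool.Agent.H61.BD
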