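import Pool.Agent.H61.BD.Main
import Pool.Agent.H61.BD.BorderExt
import Pool.Agent.H61.BD.Aniso
import Pool.Agent.H61.BD.Hess

/-! The border determinantal complexity of the permanent: assembly of the bound `(n - 3) ^ 2`. -/

namespace Pool.Agent.H61.BD

open MvPolynomial Finset Module
open Pool.Agent.H53.AC (SpecializesTo)

universe u v

theorem map_perPoly {k : Type u} [Field k] {K : Type v} [Field K] (f : k →+* K) (n : ℕ) :
    map f (perPoly n k) = perPoly n K := by
  simp only [perPoly, Matrix.permanent, map_sum, map_prod, Matrix.of_apply, map_X]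

section base

variable {K : Type u} [Field K] {m : ℕ} {q r : Fin (m + 1) → K}

/-- The point with labels. -/
def baseL (q r : Fin (m + 1) → K) (p : Fin (m + 1) × Fin (m + 1)) : K :=
  if p.1 = 0 then q p.2 else if p.2 = 0 then r p.1 else 1

theorem eval_baseL_add (hq : q 0 = 0) {u : Fin (m + 1) × Fin (m + 1) → K}
    (hur : ∀ j, u (0, j) = 0) (huc : ∀ i, u (i, 0) = 0) :
    eval (baseL q r + u) (perPoly (m + 1) K) =
      ∑ σ : Equiv.Perm (Fin (m + 1)), wl 0 q r σ * ∏ i, (1 + u (σ i, i)) := by
  rw [perPoly, Matrix.permanent, map_sum]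
  refine Finset.sum_congr rfl fun σ _ => ?_
  rw [map_prod]
  simp only [Matrix.of_apply, eval_X, Pi.add_apply]
  by_cases h : σ 0 = 0
  · have h1 : (σ⁻¹ 0 : Fin (m + 1)) = 0 := by
      rw [Equiv.Perm.inv_eq_iff_eq]; exact h.symm
    rw [wl, h1, hq, zero_mul, zero_mul]
    refine Finset.prod_eq_zero (mem_univ (0 : Fin (m + 1))) ?_
    rw [h, huc, baseL]
    simp [hq]
  · set c : Fin (m + 1) := σ⁻¹ 0 with hc
    have hσc : σ c = 0 := by rw [hc]; simp
    have hc0 : c ≠ 0 := by
      intro h0
      rw [h0] at hσc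
      exact h hσc
    have hmem : c ∈ univ.erase (0 : Fin (m + 1)) := Finset.mem_erase.2 ⟨hc0, mem_univ _⟩
    rw [← Finset.mul_prod_erase univ _ (mem_univ (0 : Fin (m + 1))),
      ← Finset.mul_prod_erase univ (fun i => 1 + u (σ i, i)) (mem_univ (0 : Fin (m + 1))),
      ← Finset.mul_prod_erase (univ.erase 0) _ hmem,
      ← Finset.mul_prod_erase (univ.erase 0) (fun i => 1 + u (σ i, i)) hmem]
    have h2 : ∏ i ∈ (univ.erase (0 : Fin (m + 1))).erase c, (baseL q r (σ i, i) + u (σ i, i)) =
        ∏ i ∈ (univ.erase (0 : Fin (m + 1))).erase c, (1 + u (σ i, i)) := by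
      refine Finset.prod_congr rfl fun i hi => ?_
      have hi1 : i ≠ c := Finset.ne_of_mem_erase hi
      have hi2 : i ≠ 0 := Finset.ne_of_mem_erase (Finset.mem_of_mem_erase hi)
      have hi3 : σ i ≠ 0 := by
        intro h3
        apply hi1
        apply σ.injective
        rw [h3, hσc]
      rw [baseL]
      simp [hi2, hi3]
    rw [h2, hσc, huc, hur]
    have h4 : baseL q r (σ 0, 0) = r (σ 0) := by rw [baseL]; simp [h]
    have h5 : baseL q r (0, c) = q c := by rw [baseL]; simp
    rw [h4, h5, wl, ← hc]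
    ring

theorem eval_baseL [CharZero K] (hq : q 0 = 0) (hr : r 0 = 0) (hqs : ∑ i, q i = 0)
    (hrs : ∑ a, r a = 0) : eval (baseL q r) (perPoly (m + 1) K) = 0 := by
  have h := eval_baseL_add (r := r) hq (u := 0) (fun _ => rfl) (fun _ => rfl)
  rw [add_zero] at h
  rw [h]
  have h2 := sum_wl (r := r) hq hr hqs hrs
  simpa using h2

theorem eval_pderiv_baseL [CharZero K] :
    eval (baseL q r) (pderiv ((0 : Fin (m + 1)), (0 : Fin (m + 1))) (perPoly (m + 1) K)) ≠ 0 := by
  have key : eval (baseL q r) (pderiv ((0 : Fin (m + 1)), (0 : Fin (m + 1)))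
      (perPoly (m + 1) K)) =
      ((univ.filter fun σ : Equiv.Perm (Fin (m + 1)) => σ 0 = 0).card : K) := by
    rw [perPoly, Matrix.permanent, map_sum, map_sum, Finset.card_filter, Nat.cast_sum]
    refine Finset.sum_congr rfl fun σ _ => ?_
    simp only [Matrix.of_apply]
    rw [← Finset.mul_prod_erase univ _ (mem_univ (0 : Fin (m + 1))), Derivation.leibniz,
      pderiv_prod_eq_zero, smul_zero, zero_add, smul_eq_mul, map_mul, map_prod]
    · by_cases h : σ 0 = 0
      · have h1 : ∏ x ∈ univ.erase (0 : Fin (m + 1)), eval (baseL q r) (X (σ x, x)) = 1 := by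
          refine Finset.prod_eq_one fun i hi => ?_
          have hi0 : i ≠ 0 := Finset.ne_of_mem_erase hi
          have hi1 : σ i ≠ 0 := by
            intro h3
            apply hi0
            apply σ.injective
            rw [h3, h]
          rw [eval_X, baseL]
          simp [hi0, hi1]
        rw [h1, one_mul, h, pderiv_X_self]
        simp
      · rw [pderiv_X_of_ne]
        · simp [h]
        · intro h2
          exact h (Prod.ext_iff.1 h2).1
    · intro i hi
      have hi0 : i ≠ 0 := Finset.ne_of_mem_erase hi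
      apply pderiv_X_of_ne
      intro h2
      exact hi0 (Prod.ext_iff.1 h2).2
  rw [key, Nat.cast_ne_zero, Finset.card_ne_zero]
  exact ⟨1, by simp⟩

end base

section main

variable {g : ℕ}

/-- The linear conditions. -/
def Psi (K : Type u) [Field K] (g : ℕ) : (Fin (g + 3) × Fin (g + 3) → K) →ₗ[K]
    (Fin (g + 3) ⊕ Fin (g + 2) ⊕ Fin (g + 2) ⊕ Fin (g + 1) ⊕ Fin (g + 1) ⊕ Fin g → K) where
  toFun u := Sum.elim (fun j => u (0, j)) (Sum.elim (fun i => u (i.succ, 0))
    (Sum.elim (fun j => u (Fin.last (g + 2), j.succ))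
    (Sum.elim (fun i => u (i.castSucc.succ, Fin.last (g + 2)))
    (Sum.elim (fun i => ∑ j, u (i.castSucc.succ, j))
      (fun j => ∑ i, u (i, j.succ.castSucc.succ))))))
  map_add' := by
    intro u w
    funext x
    rcases x with x | x | x | x | x | x <;> simp [Finset.sum_add_distrib]
  map_smul' := by
    intro c u
    funext x
    rcases x with x | x | x | x | x | x <;> simp [Finset.mul_sum]

/-- The labels: `0`, then `S`, then minus the sum. -/
def lab {K : Type u} [Field K] (S : Fin (g + 1) → K) : Fin (g + 3) → K :=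
  Fin.cons 0 (Fin.snoc (α := fun _ => K) S (-∑ i, S i))

theorem lab_zero {K : Type u} [Field K] (S : Fin (g + 1) → K) : lab S 0 = 0 := rfl

theorem lab_inner {K : Type u} [Field K] (S : Fin (g + 1) → K) (i : Fin (g + 1)) :
    lab S i.castSucc.succ = S i := by
  simp [lab]

theorem sum_lab {K : Type u} [Field K] (S : Fin (g + 1) → K) : ∑ i, lab S i = 0 := by
  rw [Fin.sum_univ_succ, Fin.sum_univ_castSucc]
  simp [lab]

theorem bound2_aux {k : Type u} [Field k] [CharZero k] {s : ℕ}
    (h : BorderDetLE (perPoly (g + 3) k) s) : g ^ 2 ≤ s := by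
  obtain ⟨K, _, _, T, S, hTS⟩ := exists_labels k (g + 1)
  haveI : CharZero K := charZero_of_injective_algebraMap (algebraMap k K).injective
  obtain ⟨U, hU, hU0⟩ := exists_subspace_ext (K := K) h (baseL (lab S) (lab T)) (0, 0)
    (by rw [map_perPoly]; exact eval_baseL (lab_zero S) (lab_zero T) (sum_lab S) (sum_lab T))
    (by rw [map_perPoly]; exact eval_pderiv_baseL)
  rw [map_perPoly] at hU0
  rw [Fintype.card_prod, Fintype.card_fin] at hU
  -- no element of `U` satisfies the linear conditions
  have hbot : U ⊓ LinearMap.ker (Psi K g) = ⊥ := by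
    rw [eq_bot_iff]
    intro u hu
    rw [Submodule.mem_bot]
    have hk : Psi K g u = 0 := LinearMap.mem_ker.1 hu.2
    have h1 : ∀ j, u (0, j) = 0 := fun j => congrFun hk (Sum.inl j)
    have h2 : ∀ i, u (i, 0) = 0 := by
      intro i
      refine Fin.cases (h1 0) (fun i => ?_) i
      exact congrFun hk (Sum.inr (Sum.inl i))
    have h3 : ∀ j, u (Fin.last (g + 2), j) = 0 := by
      intro j
      refine Fin.cases (h2 _) (fun j => ?_) j
      exact congrFun hk (Sum.inr (Sum.inr (Sum.inl j)))
    have h4 : ∀ i, u (i, Fin.last (g + 2)) = 0 := by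
      intro i
      refine Fin.cases (h1 _) (fun i => ?_) i
      refine Fin.lastCases ?_ (fun i => ?_) i
      · rw [Fin.succ_last]; exact h3 _
      · exact congrFun hk (Sum.inr (Sum.inr (Sum.inr (Sum.inl i))))
    have h5 : ∀ i, ∑ j, u (i, j) = 0 := by
      intro i
      refine Fin.cases ?_ (fun i => ?_) i
      · simp [h1]
      · refine Fin.lastCases ?_ (fun i => ?_) i
        · rw [Fin.succ_last]; simp [h3]
        · exact congrFun hk (Sum.inr (Sum.inr (Sum.inr (Sum.inr (Sum.inl i)))))
    have h6 : ∀ j : Fin g, ∑ i, u (i, j.succ.castSucc.succ) = 0 := fun j =>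
      congrFun hk (Sum.inr (Sum.inr (Sum.inr (Sum.inr (Sum.inr j)))))
    have h7 : ∀ j, ∑ i, u (i, j) = 0 := by
      have htot : ∑ j, ∑ i, u (i, j) = 0 := by
        rw [Finset.sum_comm]
        simp [h5]
      have e0 : ∑ i, u (i, (0 : Fin (g + 3))) = 0 := by simp [h2]
      have el : ∑ i, u (i, Fin.last (g + 2)) = 0 := by simp [h4]
      rw [Fin.sum_univ_succ (fun j : Fin (g + 3) => ∑ i, u (i, j)), e0, zero_add,
        Fin.sum_univ_castSucc (fun j : Fin (g + 2) => ∑ i, u (i, j.succ)), Fin.succ_last, el,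
        add_zero, Fin.sum_univ_succ (fun j : Fin (g + 1) => ∑ i, u (i, j.castSucc.succ))] at htot
      simp only [h6, Finset.sum_const_zero, add_zero] at htot
      intro j
      refine Fin.cases e0 (fun j => ?_) j
      refine Fin.lastCases ?_ (fun j => ?_) j
      · rw [Fin.succ_last]; exact el
      · refine Fin.cases htot (fun j => h6 j) j
    have hper : ∀ t : K, ∑ σ : Equiv.Perm (Fin (g + 3)), wl 0 (lab S) (lab T) σ *
        ∏ i, (1 + t * (fun a i => u (a, i)) (σ i) i) = 0 := by
      intro t
      have e1 := hU0 _ (U.smul_mem t hu.1)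
      rw [eval_baseL_add (lab_zero S) (by intro j; simp [h1]) (by intro i; simp [h2])] at e1
      exact e1
    have hh := hess (o := (0 : Fin (g + 3))) (q := lab S) (r := lab T) (lab_zero S) (lab_zero T)
      (sum_lab S) (sum_lab T) (u := fun a i => u (a, i)) h1 h2 hper h5 h7
    have hin : ∑ a, ∑ i, T a * S i * u ((a.castSucc.succ : Fin (g + 3)),
        (i.castSucc.succ : Fin (g + 3))) ^ 2 = 0 := by
      rw [← hh, Fin.sum_univ_succ (fun a : Fin (g + 3) => ∑ i, lab T a * lab S i * u (a, i) ^ 2),
        Fin.sum_univ_castSucc (fun a : Fin (g + 2) =>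
          ∑ i, lab T a.succ * lab S i * u (a.succ, i) ^ 2), Fin.succ_last]
      have e1 : ∑ i, lab T 0 * lab S i * u (0, i) ^ 2 = 0 := by simp [h1]
      have e2 : ∑ i, lab T (Fin.last (g + 2)) * lab S i * u (Fin.last (g + 2), i) ^ 2 = 0 := by
        simp [h3]
      rw [e1, e2, zero_add, add_zero]
      refine Finset.sum_congr rfl fun a _ => ?_
      rw [Fin.sum_univ_succ (fun i : Fin (g + 3) =>
          lab T a.castSucc.succ * lab S i * u (a.castSucc.succ, i) ^ 2),
        Fin.sum_univ_castSucc (fun i : Fin (g + 2) =>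
          lab T a.castSucc.succ * lab S i.succ * u (a.castSucc.succ, i.succ) ^ 2), Fin.succ_last]
      simp only [h2, h4, lab_inner]
      ring
    have hin0 := hTS (fun a i => u ((a.castSucc.succ : Fin (g + 3)),
        (i.castSucc.succ : Fin (g + 3)))) hin
    funext ⟨a, i⟩
    refine Fin.cases (h1 i) (fun a => ?_) a
    refine Fin.lastCases ?_ (fun a => ?_) a
    · rw [Fin.succ_last]; exact h3 i
    · refine Fin.cases (h2 _) (fun i => ?_) i
      refine Fin.lastCases ?_ (fun i => ?_) i
      · rw [Fin.succ_last]; exact h4 _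
      · exact hin0 a i
  have hdim : finrank K U ≤ 6 * g + 9 := by
    have h1 := LinearMap.finrank_range_add_finrank_ker (Psi K g)
    have h2 := Submodule.finrank_le (LinearMap.range (Psi K g))
    have h3 := Submodule.finrank_sup_add_finrank_inf_eq U (LinearMap.ker (Psi K g))
    have h4 := Submodule.finrank_le (U ⊔ LinearMap.ker (Psi K g))
    rw [hbot, finrank_bot] at h3
    simp only [Module.finrank_fintype_fun_eq_card, Fintype.card_sum, Fintype.card_fin,
      Fintype.card_prod] at h1 h2 h4
    omega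
  nlinarith

/-- The border determinantal complexity of the permanent is at least `(n - 3) ^ 2`. -/
theorem bound2 {k : Type u} [Field k] [CharZero k] {n s : ℕ}
    (h : BorderDetLE (perPoly n k) s) : (n - 3) ^ 2 ≤ s := by
  rcases Nat.lt_or_ge n 3 with hn | hn
  · have : n - 3 = 0 := by omega
    rw [this]; simp
  · obtain ⟨g, rfl⟩ := Nat.exists_eq_add_of_le' hn
    exact bound2_aux h

end main

end Pool.Agent.H61.BD
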